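import Pool.Agent.Work.MP_495a89_grx.Interface
import Pool.Agent.Work.PNT70.PNT

/-! Block APS (helper81). -/

set_option autoImplicit false

namespace Pool.GRX

open Finset Pool.GRO ArithmeticFunction

theorem p_APS : S_APS := by
  intro Q hQ u hu ε hε
  haveI : NeZero Q := ⟨by omega⟩
  have ha : IsUnit (u : ZMod Q) := (ZMod.isUnit_iff_coprime u Q).2 hu
  have h1 := Pool.Agent.Work.PNT70.pnt_ap ha
  have h2 := (h1.eventually (gt_mem_nhds (show ((Q.totient : ℝ)⁻¹) < (Q.totient : ℝ)⁻¹ + ε by linarith)))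
  obtain ⟨x0, hx0⟩ := Filter.eventually_atTop.1 h2
  refine ⟨⌈x0⌉₊ + 1, fun v hv => ?_⟩
  have hv1 : x0 ≤ (v : ℝ) := by
    refine (Nat.le_ceil x0).trans ?_
    exact_mod_cast (by omega : ⌈x0⌉₊ ≤ v)
  have hv0 : (0 : ℝ) < (v : ℝ) := by
    exact_mod_cast (by omega : 0 < v)
  have h3 := hx0 (v : ℝ) hv1
  rw [Nat.floor_natCast, div_lt_iff₀ hv0] at h3
  rw [one_div]
  refine le_trans ?_ h3.le
  have h4 : ∀ p ∈ (Icc 1 v).filter (fun p => p.Prime ∧ p % Q = u % Q),
      Real.log p = vonMangoldt.residueClass (u : ZMod Q) p := by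
    intro p hp
    obtain ⟨_, hp1, hp2⟩ := Finset.mem_filter.1 hp
    have h5 : ((p : ℕ) : ZMod Q) = (u : ZMod Q) := (ZMod.natCast_eq_natCast_iff' p u Q).2 hp2
    unfold vonMangoldt.residueClass
    rw [Set.indicator_of_mem (show p ∈ {n : ℕ | (n : ZMod Q) = (u : ZMod Q)} from h5),
      vonMangoldt_apply_prime hp1]
  rw [Finset.sum_congr rfl h4]
  refine Finset.sum_le_sum_of_subset_of_nonneg (Finset.filter_subset _ _) ?_
  intro i _ _
  exact vonMangoldt.residueClass_nonneg (u : ZMod Q) i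

end Pool.GRX
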