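import Pool.Agent.Work.MP_495a89_grx.Interface
import Pool.Agent.Work.PNT70.PNT

/-!
# Block APS, second copy
-/

set_option autoImplicit false

namespace Pool.GRX

open Finset Pool.GRO

theorem p_APSx : S_APS := by
  classical
  intro Q hQ u hu ε hε
  have hne : NeZero Q := ⟨by omega⟩
  have ha : IsUnit (u : ZMod Q) := (ZMod.isUnit_iff_coprime u Q).2 hu
  have h := Pool.Agent.Work.PNT70.pnt_ap ha
  have hlt : ((Q.totient : ℝ)⁻¹) < 1 / (Q.totient : ℝ) + ε := by
    rw [one_div]
    linarith
  have h1 := (h.comp tendsto_natCast_atTop_atTop).eventually (eventually_le_nhds hlt)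
  obtain ⟨V, hV⟩ := Filter.eventually_atTop.1 h1
  refine ⟨max V 1, fun v hv => ?_⟩
  have hv1 : V ≤ v := (le_max_left _ _).trans hv
  have hv2 : 1 ≤ v := (le_max_right _ _).trans hv
  have hv0 : (0 : ℝ) < v := by exact_mod_cast hv2
  have h2 := hV v hv1
  simp only [Function.comp, Nat.floor_natCast] at h2
  rw [div_le_iff₀ hv0] at h2
  refine le_trans ?_ h2
  calc ∑ p ∈ (Icc 1 v).filter (fun p => p.Prime ∧ p % Q = u % Q), Real.log p
      ≤ ∑ p ∈ (Icc 1 v).filter (fun p => p.Prime ∧ p % Q = u % Q),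
          ArithmeticFunction.vonMangoldt.residueClass (u : ZMod Q) p := by
        refine Finset.sum_le_sum fun p hp => ?_
        rw [mem_filter] at hp
        have h3 : (p : ZMod Q) = (u : ZMod Q) := (ZMod.natCast_eq_natCast_iff' p u Q).2 hp.2.2
        unfold ArithmeticFunction.vonMangoldt.residueClass
        rw [Set.indicator_of_mem (show p ∈ {n : ℕ | (n : ZMod Q) = (u : ZMod Q)} from h3),
          ArithmeticFunction.vonMangoldt_apply_prime hp.2.1]
    _ ≤ ∑ p ∈ Icc 1 v, ArithmeticFunction.vonMangoldt.residueClass (u : ZMod Q) p :=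
        Finset.sum_le_sum_of_subset_of_nonneg (Finset.filter_subset _ _)
          (fun _ _ _ => ArithmeticFunction.vonMangoldt.residueClass_nonneg _ _)

end Pool.GRX
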