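import Pool.Agent.Work.MP_495a89_grx.Interface

/-! AVL, typed by helper7. -/

set_option autoImplicit false

namespace Pool.GRX

open Finset Pool.GRO

theorem AVL_totient (S : Finset ℕ) (hS : ∀ r ∈ S, r.Prime) :
    (∏ r ∈ S, r).totient = ∏ r ∈ S, (r - 1) := by
  classical
  induction S using Finset.induction_on with
  | empty => simp
  | insert a s ha ih =>
    rw [Finset.prod_insert ha, Finset.prod_insert ha]
    have hap : a.Prime := hS a (Finset.mem_insert_self a s)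
    have hcop : Nat.Coprime a (∏ r ∈ s, r) := by
      apply Nat.Coprime.prod_right
      intro r hr
      refine (Nat.coprime_primes hap (hS r (Finset.mem_insert_of_mem hr))).2 ?_
      rintro rfl
      exact ha hr
    rw [Nat.totient_mul hcop, Nat.totient_prime hap,
      ih (fun r hr => hS r (Finset.mem_insert_of_mem hr))]

theorem AVL_one (l r : ℕ) (hl : l.Prime) (hr : r.Prime) (hrl : r % l = 1) :
    ((r - l : ℕ) : ℝ) ≤ ((r - 1 : ℕ) : ℝ) * Real.exp (-(1 / (r : ℝ))) := by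
  have hl2 : 2 ≤ l := hl.two_le
  have hr2 : 2 ≤ r := hr.two_le
  have hlr : l < r := by
    by_contra h
    push Not at h
    rcases Nat.lt_or_ge r l with h1 | h1
    · rw [Nat.mod_eq_of_lt h1] at hrl
      omega
    · have : r = l := le_antisymm h h1
      rw [this, Nat.mod_self] at hrl
      omega
  have hr0 : (0 : ℝ) < r := by exact_mod_cast (by omega : 0 < r)
  have hr2' : (2 : ℝ) ≤ r := by exact_mod_cast hr2
  have hl2' : (2 : ℝ) ≤ l := by exact_mod_cast hl2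
  rw [Nat.cast_sub hlr.le, Nat.cast_sub (by omega : 1 ≤ r), Nat.cast_one]
  have h1 := Real.add_one_le_exp (-(1 / (r : ℝ)))
  have h2 : ((r : ℝ) - 1) * (-(1 / (r : ℝ)) + 1) ≤ ((r : ℝ) - 1) * Real.exp (-(1 / (r : ℝ))) :=
    mul_le_mul_of_nonneg_left h1 (by linarith)
  have h3 : ((r : ℝ) - 1) * (-(1 / (r : ℝ)) + 1) = (r : ℝ) - 2 + 1 / r := by
    field_simp
    ring
  have h4 : 0 < 1 / (r : ℝ) := by positivity
  linarith

theorem AVL_ratio (l : ℕ) (hl : l.Prime) (S : Finset ℕ) (hS : ∀ r ∈ S, r.Prime ∧ r % l = 1) :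
    ((∏ r ∈ S, (r - l) : ℕ) : ℝ) ≤
      ((∏ r ∈ S, (r - 1) : ℕ) : ℝ) * Real.exp (-∑ r ∈ S, 1 / (r : ℝ)) := by
  rw [← Finset.sum_neg_distrib, Real.exp_sum, Nat.cast_prod, Nat.cast_prod,
    ← Finset.prod_mul_distrib]
  apply Finset.prod_le_prod
  · intro r _
    exact Nat.cast_nonneg _
  · intro r hr
    exact AVL_one l r hl (hS r hr).1 (hS r hr).2

theorem AVL_mod (l p Q r : ℕ) (hr : r ∣ Q) :
    ∑ i ∈ range l, (p % Q) ^ i ≡ ∑ i ∈ range l, p ^ i [MOD r] := by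
  have h0 : p % Q ≡ p [MOD r] := (Nat.mod_modEq p Q).of_dvd hr
  induction l with
  | zero => rfl
  | succ l ih =>
    rw [Finset.sum_range_succ, Finset.sum_range_succ]
    exact ih.add (h0.pow l)

theorem p_AVL (h1 : S_DIV) (h2 : S_CLS) (h3 : S_APS) : S_AVL := by
  classical
  intro l hl ε hε
  obtain ⟨R, hR⟩ := h1 l hl (-Real.log (ε / 3))
  obtain ⟨S, hSdef⟩ : ∃ S : Finset ℕ, S = (Icc 1 R).filter (fun r => r.Prime ∧ r % l = 1) :=
    ⟨_, rfl⟩
  rw [← hSdef] at hR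
  have hS : ∀ r ∈ S, r.Prime ∧ r % l = 1 := by
    intro r hr
    rw [hSdef] at hr
    exact (mem_filter.1 hr).2
  obtain ⟨Q, hQ⟩ : ∃ Q : ℕ, Q = ∏ r ∈ S, r := ⟨_, rfl⟩
  have hQ1 : 1 ≤ Q := by
    rw [hQ]
    exact Nat.one_le_iff_ne_zero.2
      (Finset.prod_ne_zero_iff.2 (fun r hr => (hS r hr).1.ne_zero))
  have hdvd : ∀ r ∈ S, r ∣ Q := by
    intro r hr
    rw [hQ]
    exact Finset.dvd_prod_of_mem (fun r => r) hr
  obtain ⟨B, hB⟩ : ∃ B : Finset ℕ, B = (range Q).filter (fun u => u.Coprime Q ∧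
    ∀ r ∈ S, ¬ r ∣ ∑ i ∈ range l, u ^ i) := ⟨_, rfl⟩
  have hBc : B.card ≤ ∏ r ∈ S, (r - l) := by
    have h := h2 l hl S hS
    rw [← hQ] at h
    rw [hB]
    convert h
  have htot : Q.totient = ∏ r ∈ S, (r - 1) := by
    rw [hQ]
    exact AVL_totient S (fun r hr => (hS r hr).1)
  have hφ : (0 : ℝ) < (Q.totient : ℝ) := by exact_mod_cast Nat.totient_pos.2 hQ1
  have hBφ : (B.card : ℝ) ≤ (Q.totient : ℝ) * (ε / 3) := by
    have h := AVL_ratio l hl S hS
    have hexp : Real.exp (-∑ r ∈ S, 1 / (r : ℝ)) ≤ ε / 3 := by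
      calc Real.exp (-∑ r ∈ S, 1 / (r : ℝ)) ≤ Real.exp (Real.log (ε / 3)) :=
            Real.exp_le_exp.2 (by linarith)
        _ = ε / 3 := Real.exp_log (by positivity)
    calc (B.card : ℝ) ≤ ((∏ r ∈ S, (r - l) : ℕ) : ℝ) := by exact_mod_cast hBc
      _ ≤ ((∏ r ∈ S, (r - 1) : ℕ) : ℝ) * Real.exp (-∑ r ∈ S, 1 / (r : ℝ)) := h
      _ = (Q.totient : ℝ) * Real.exp (-∑ r ∈ S, 1 / (r : ℝ)) := by rw [htot]
      _ ≤ (Q.totient : ℝ) * (ε / 3) := mul_le_mul_of_nonneg_left hexp hφ.le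
  have hε' : 0 < ε / (3 * ((B.card : ℝ) + 1)) := by positivity
  have hch : ∀ u : ℕ, ∃ V0 : ℕ, u ∈ B → ∀ v : ℕ, V0 ≤ v →
      ∑ p ∈ (Icc 1 v).filter (fun p => p.Prime ∧ p % Q = u % Q), Real.log p ≤
        (1 / (Q.totient : ℝ) + ε / (3 * ((B.card : ℝ) + 1))) * v := by
    intro u
    by_cases hu : u ∈ B
    · have hu' := hu
      rw [hB] at hu'
      obtain ⟨V0, hV0⟩ := h3 Q hQ1 u (mem_filter.1 hu').2.1 _ hε'
      exact ⟨V0, fun _ => hV0⟩
    · exact ⟨0, fun h => absurd h hu⟩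
  choose V hV using hch
  obtain ⟨C0, hC0⟩ : ∃ C0 : ℝ, C0 = ∑ p ∈ Q.primeFactors, Real.log p := ⟨_, rfl⟩
  refine ⟨R, max (B.sup V) ⌈3 * C0 / ε⌉₊, fun v hv => ?_⟩
  have hv0 : (0 : ℝ) ≤ v := Nat.cast_nonneg v
  have hv1 : ∀ u ∈ B, V u ≤ v := fun u hu =>
    le_trans (Finset.le_sup hu) (le_trans (le_max_left _ _) hv)
  have hv2 : C0 ≤ ε / 3 * v := by
    have h4 : 3 * C0 / ε ≤ (v : ℝ) :=
      le_trans (Nat.le_ceil _) (by exact_mod_cast le_trans (le_max_right _ _) hv)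
    rw [div_le_iff₀ hε] at h4
    linarith
  have hlog : ∀ p : ℕ, 0 ≤ Real.log (p : ℝ) := fun p => Real.log_natCast_nonneg p
  obtain ⟨F, hF⟩ : ∃ F : Finset ℕ, F = (Icc 1 v).filter (fun p => p.Prime ∧
    ∀ r ∈ Icc 1 R, r.Prime → r % l = 1 → ¬ r ∣ ∑ i ∈ range l, p ^ i) := ⟨_, rfl⟩
  have hgoal : ∑ p ∈ F, Real.log (p : ℝ) ≤ ε * v := by
    rw [← Finset.sum_filter_add_sum_filter_not F (fun p => p ∣ Q) (fun p => Real.log (p : ℝ))]
    have hp1 : ∑ p ∈ F.filter (fun p => p ∣ Q), Real.log (p : ℝ) ≤ C0 := by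
      rw [hC0]
      apply Finset.sum_le_sum_of_subset_of_nonneg
      · intro p hp
        rw [mem_filter, hF, mem_filter] at hp
        exact Nat.mem_primeFactors.2 ⟨hp.1.2.1, hp.2, by omega⟩
      · intro p _ _
        exact hlog p
    have hmaps : ∀ p ∈ F.filter (fun p => ¬ p ∣ Q), p % Q ∈ B := by
      intro p hp
      rw [mem_filter, hF, mem_filter] at hp
      obtain ⟨⟨_, hpp, hpr⟩, hpQ⟩ := hp
      rw [hB, mem_filter, mem_range]
      refine ⟨Nat.mod_lt _ hQ1, ?_, ?_⟩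
      · have hc : Nat.Coprime p Q := (Nat.Prime.coprime_iff_not_dvd hpp).2 hpQ
        have hg := Nat.gcd_rec Q p
        show Nat.gcd (p % Q) Q = 1
        rw [← hg]
        exact hc.symm
      · intro r hr hd
        have hr' := hr
        rw [hSdef, mem_filter] at hr'
        refine hpr r hr'.1 hr'.2.1 hr'.2.2 ?_
        exact ((AVL_mod l p Q r (hdvd r hr)).dvd_iff dvd_rfl).1 hd
    have hp2 : ∑ p ∈ F.filter (fun p => ¬ p ∣ Q), Real.log (p : ℝ) ≤
        (B.card : ℝ) * ((1 / (Q.totient : ℝ) + ε / (3 * ((B.card : ℝ) + 1))) * v) := by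
      rw [← Finset.sum_fiberwise_of_maps_to hmaps]
      have hle : ∀ u ∈ B, ∑ p ∈ (F.filter (fun p => ¬ p ∣ Q)).filter (fun p => p % Q = u),
          Real.log (p : ℝ) ≤ (1 / (Q.totient : ℝ) + ε / (3 * ((B.card : ℝ) + 1))) * v := by
        intro u hu
        refine le_trans ?_ (hV u hu v (hv1 u hu))
        apply Finset.sum_le_sum_of_subset_of_nonneg
        · intro p hp
          rw [mem_filter, mem_filter, hF, mem_filter] at hp
          rw [mem_filter]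
          refine ⟨hp.1.1.1, hp.1.1.2.1, ?_⟩
          rw [← hp.2, Nat.mod_mod]
        · intro p _ _
          exact hlog p
      have hsum := Finset.sum_le_sum hle
      rw [Finset.sum_const, nsmul_eq_mul] at hsum
      exact hsum
    have hq1 : (B.card : ℝ) * (1 / (Q.totient : ℝ)) ≤ ε / 3 := by
      rw [mul_one_div, div_le_iff₀ hφ]
      linarith
    have hb0 : (0 : ℝ) ≤ (B.card : ℝ) := Nat.cast_nonneg _
    have hq2 : (B.card : ℝ) * (ε / (3 * ((B.card : ℝ) + 1))) ≤ ε / 3 := by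
      rw [mul_div_assoc', div_le_div_iff₀ (by positivity) (by norm_num)]
      nlinarith
    have hq3 : (B.card : ℝ) * ((1 / (Q.totient : ℝ) + ε / (3 * ((B.card : ℝ) + 1))) * v) ≤
        (ε / 3 + ε / 3) * v := by
      have h5 : (B.card : ℝ) * ((1 / (Q.totient : ℝ) + ε / (3 * ((B.card : ℝ) + 1))) * v) =
          ((B.card : ℝ) * (1 / (Q.totient : ℝ)) +
            (B.card : ℝ) * (ε / (3 * ((B.card : ℝ) + 1)))) * v := by ring
      rw [h5]
      exact mul_le_mul_of_nonneg_right (by linarith) hv0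
    linarith
  rw [hF] at hgoal
  convert hgoal

end Pool.GRX

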