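import Pool.Agent.Work.MP_495a89_grx.Interface

set_option autoImplicit false

namespace Pool.GRX

open Finset Pool.GRO

theorem AVLx_tot (S : Finset ℕ) : (∀ r ∈ S, r.Prime) →
    (∏ r ∈ S, r).totient = ∏ r ∈ S, (r - 1) := by
  classical
  induction S using Finset.induction_on with
  | empty => intro _; simp
  | insert a s ha ih =>
    intro h
    have hap := h a (Finset.mem_insert_self a s)
    have hs : ∀ r ∈ s, r.Prime := fun r hr => h r (Finset.mem_insert_of_mem hr)
    rw [Finset.prod_insert ha, Finset.prod_insert ha, Nat.totient_mul, ih hs,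
      Nat.totient_prime hap]
    apply Nat.Coprime.prod_right
    intro r hr
    exact (Nat.coprime_primes hap (hs r hr)).2 (fun e => ha (e ▸ hr))

theorem p_AVLx (hDIV : S_DIV) (hCLS : S_CLS) (hAPS : S_APS) : S_AVL := by
  classical
  intro l hl ε hε
  obtain ⟨R, hR⟩ := hDIV l hl (Real.log (3 / ε))
  set S := (Icc 1 R).filter (fun r => r.Prime ∧ r % l = 1) with hS
  set Q := ∏ r ∈ S, r with hQ
  have hSp : ∀ r ∈ S, r.Prime ∧ r % l = 1 := fun r hr => (Finset.mem_filter.mp hr).2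
  have hQ1 : 1 ≤ Q := Finset.prod_pos (fun r hr => (hSp r hr).1.pos)
  set U := (range Q).filter (fun u => u.Coprime Q ∧ ∀ r ∈ S, ¬ r ∣ ∑ i ∈ range l, u ^ i)
    with hU
  have hUc : U.card ≤ ∏ r ∈ S, (r - l) := hCLS l hl S hSp
  have htot : Q.totient = ∏ r ∈ S, (r - 1) := AVLx_tot S (fun r hr => (hSp r hr).1)
  have hφ : (0 : ℝ) < Q.totient := by
    exact_mod_cast Nat.totient_pos.mpr hQ1
  have hlr : ∀ r ∈ S, l ≤ r := by
    intro r hr
    obtain ⟨h1, h2⟩ := hSp r hr
    by_contra hcon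
    push Not at hcon
    rw [Nat.mod_eq_of_lt hcon] at h2
    exact h1.one_lt.ne' h2
  have hUb : (U.card : ℝ) ≤ ε / 3 * Q.totient := by
    have e1 : (U.card : ℝ) ≤ ∏ r ∈ S, ((r : ℝ) - l) := by
      have : (U.card : ℝ) ≤ ((∏ r ∈ S, (r - l) : ℕ) : ℝ) := by exact_mod_cast hUc
      refine this.trans (le_of_eq ?_)
      rw [Nat.cast_prod]
      apply Finset.prod_congr rfl
      intro r hr
      rw [Nat.cast_sub (hlr r hr)]
    have e2 : ∏ r ∈ S, ((r : ℝ) - l) ≤ ∏ r ∈ S, (Real.exp (-(1 / (r : ℝ))) * ((r : ℝ) - 1)) := by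
      apply Finset.prod_le_prod
      · intro r hr
        have : (l : ℝ) ≤ r := by exact_mod_cast hlr r hr
        linarith
      · intro r hr
        have h1 : (1 : ℝ) < r := by exact_mod_cast (hSp r hr).1.one_lt
        have h2 : (2 : ℝ) ≤ l := by exact_mod_cast hl.two_le
        have h3 := Real.add_one_le_exp (-(1 / (r : ℝ)))
        have h4 : (-(1 / (r : ℝ)) + 1) * ((r : ℝ) - 1) ≤
            Real.exp (-(1 / (r : ℝ))) * ((r : ℝ) - 1) :=
          mul_le_mul_of_nonneg_right h3 (by linarith)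
        refine le_trans ?_ h4
        have h5 : (-(1 / (r : ℝ)) + 1) * ((r : ℝ) - 1) = r - 2 + 1 / r := by
          field_simp
          ring
        rw [h5]
        have h6 : (0 : ℝ) < 1 / r := by positivity
        linarith
    have e3 : ∏ r ∈ S, (Real.exp (-(1 / (r : ℝ))) * ((r : ℝ) - 1)) =
        Real.exp (-∑ r ∈ S, 1 / (r : ℝ)) * Q.totient := by
      rw [Finset.prod_mul_distrib, ← Real.exp_sum, Finset.sum_neg_distrib, htot, Nat.cast_prod]
      congr 1
      apply Finset.prod_congr rfl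
      intro r hr
      rw [Nat.cast_sub (hSp r hr).1.one_lt.le, Nat.cast_one]
    have e4 : Real.exp (-∑ r ∈ S, 1 / (r : ℝ)) ≤ ε / 3 := by
      have h7 : Real.exp (-∑ r ∈ S, 1 / (r : ℝ)) ≤ Real.exp (-Real.log (3 / ε)) :=
        Real.exp_le_exp.mpr (by linarith)
      refine h7.trans (le_of_eq ?_)
      rw [Real.exp_neg, Real.exp_log (by positivity)]
      rw [inv_div]
    calc (U.card : ℝ) ≤ _ := e1
      _ ≤ _ := e2
      _ = _ := e3
      _ ≤ ε / 3 * Q.totient := mul_le_mul_of_nonneg_right e4 hφ.le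
  set ε' : ℝ := ε / (3 * (U.card + 1)) with hε'
  have hε'0 : 0 < ε' := by positivity
  have hch : ∀ u : ℕ, ∃ V0 : ℕ, u ∈ U → ∀ v : ℕ, V0 ≤ v →
      ∑ p ∈ (Icc 1 v).filter (fun p => p.Prime ∧ p % Q = u % Q), Real.log p ≤
        (1 / (Q.totient : ℝ) + ε') * v := by
    intro u
    by_cases hu : u ∈ U
    · obtain ⟨V0, h⟩ := hAPS Q hQ1 u (Finset.mem_filter.mp hu).2.1 ε' hε'0
      exact ⟨V0, fun _ => h⟩
    · exact ⟨0, fun h => absurd h hu⟩
  choose V hV using hch
  set L0 : ℝ := ∑ r ∈ S, Real.log (r : ℝ) with hL0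
  refine ⟨R, max (U.sup V) ⌈3 * L0 / ε⌉₊, ?_⟩
  intro v hv
  have hv1 : ∀ u ∈ U, V u ≤ v := fun u hu =>
    (Finset.le_sup hu).trans ((le_max_left _ _).trans hv)
  have hv2 : L0 ≤ ε / 3 * v := by
    have h1 : 3 * L0 / ε ≤ v := (Nat.le_ceil _).trans
      (by exact_mod_cast (le_max_right _ _).trans hv)
    rw [div_le_iff₀ hε] at h1
    linarith
  set A := (Icc 1 v).filter (fun p => p.Prime ∧
    ∀ r ∈ Icc 1 R, r.Prime → r % l = 1 → ¬ r ∣ ∑ i ∈ range l, p ^ i) with hA
  have hlogp : ∀ p : ℕ, p.Prime → 0 ≤ Real.log (p : ℝ) := fun p hp =>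
    Real.log_nonneg (by exact_mod_cast hp.one_lt.le)
  have hsplit := Finset.sum_filter_add_sum_filter_not A (fun p => p ∈ S)
    (fun p : ℕ => Real.log (p : ℝ))
  have hfirst : ∑ p ∈ A.filter (fun p => p ∈ S), Real.log (p : ℝ) ≤ L0 := by
    apply Finset.sum_le_sum_of_subset_of_nonneg
    · intro p hp
      exact (Finset.mem_filter.mp hp).2
    · intro p hp _
      exact hlogp p (hSp p hp).1
  have hmaps : ∀ p ∈ A.filter (fun p => ¬ p ∈ S), p % Q ∈ U := by
    intro p hp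
    rw [Finset.mem_filter, hA, Finset.mem_filter] at hp
    obtain ⟨⟨-, hpp, hpr⟩, hpS⟩ := hp
    rw [hU, Finset.mem_filter, Finset.mem_range]
    refine ⟨Nat.mod_lt _ hQ1, ?_, ?_⟩
    · have h1 : Nat.Coprime p Q := by
        apply Nat.Coprime.prod_right
        intro r hr
        exact (Nat.coprime_primes hpp (hSp r hr).1).2 (fun e => hpS (e ▸ hr))
      have h2 := (Nat.mod_modEq p Q).gcd_eq
      unfold Nat.Coprime at h1 ⊢
      rw [h2, h1]
    · intro r hr hdvd
      have hrI := (Finset.mem_filter.mp hr).1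
      apply hpr r hrI (hSp r hr).1 (hSp r hr).2
      have hm : ((p % Q : ℕ) : ZMod r) = ((p : ℕ) : ZMod r) := by
        rw [ZMod.natCast_eq_natCast_iff]
        exact (Nat.mod_modEq p Q).of_dvd (Finset.dvd_prod_of_mem _ hr)
      rw [← ZMod.natCast_eq_zero_iff] at hdvd ⊢
      push_cast at hdvd ⊢
      rw [← hdvd]
      apply Finset.sum_congr rfl
      intro i _
      rw [hm]
  have hfib := Finset.sum_fiberwise_of_maps_to hmaps (fun p : ℕ => Real.log (p : ℝ))
  have hsecond : ∑ p ∈ A.filter (fun p => ¬ p ∈ S), Real.log (p : ℝ) ≤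
      U.card * ((1 / (Q.totient : ℝ) + ε') * v) := by
    rw [← hfib, ← nsmul_eq_mul]
    apply Finset.sum_le_card_nsmul
    intro u hu
    refine le_trans ?_ (hV u hu v (hv1 u hu))
    apply Finset.sum_le_sum_of_subset_of_nonneg
    · intro p hp
      rw [Finset.mem_filter, Finset.mem_filter, hA, Finset.mem_filter] at hp
      rw [Finset.mem_filter]
      refine ⟨hp.1.1.1, hp.1.1.2.1, ?_⟩
      rw [hp.2]
      exact (Nat.mod_eq_of_lt (Finset.mem_range.mp (Finset.mem_filter.mp hu).1)).symm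
    · intro p hp _
      exact hlogp p (Finset.mem_filter.mp hp).2.1
  have hv0 : (0 : ℝ) ≤ v := Nat.cast_nonneg v
  have hthird : (U.card : ℝ) * ((1 / (Q.totient : ℝ) + ε') * v) ≤ (ε / 3 + ε / 3) * v := by
    have h1 : (U.card : ℝ) * (1 / (Q.totient : ℝ)) ≤ ε / 3 := by
      rw [mul_one_div, div_le_iff₀ hφ]
      exact hUb
    have h2 : (U.card : ℝ) * ε' ≤ ε / 3 := by
      rw [hε', ← mul_div_assoc, div_le_div_iff₀ (by positivity) (by norm_num)]
      have : (0 : ℝ) ≤ U.card := Nat.cast_nonneg _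
      nlinarith
    calc (U.card : ℝ) * ((1 / (Q.totient : ℝ) + ε') * v) =
        (U.card * (1 / (Q.totient : ℝ)) + U.card * ε') * v := by ring
      _ ≤ (ε / 3 + ε / 3) * v := mul_le_mul_of_nonneg_right (add_le_add h1 h2) hv0
  rw [← hsplit]
  linarith

end Pool.GRX
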