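import Pool.Agent.Work.MP_495a89_grx.Interface

set_option autoImplicit false

namespace Pool.GRX

open Finset Pool.GRO

theorem AVO_dvd (x l m : ℕ) : (∑ i ∈ range l, x ^ i) ∣ ∑ i ∈ range (l * m), x ^ i := by
  induction m with
  | zero => simp
  | succ m ih =>
    rw [Nat.mul_succ, Finset.sum_range_add]
    refine (Nat.dvd_add_right ih).2 ?_
    have h : ∑ i ∈ range l, x ^ (l * m + i) = (∑ i ∈ range l, x ^ i) * x ^ (l * m) := by
      rw [Finset.sum_mul]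
      refine Finset.sum_congr rfl fun i _ => ?_
      rw [pow_add, mul_comm]
    rw [h]
    exact Dvd.intro _ rfl

theorem p_AVO (h1 : S_AVL) : S_AVO := by
  intro A0 ε hε
  have hl : ∀ a : ℕ, 1 ≤ a → ((a + 1).minFac).Prime := fun a ha =>
    Nat.minFac_prime (by omega)
  have key : ∀ a : ℕ, ∃ R V0 : ℕ, 1 ≤ a → ∀ v : ℕ, V0 ≤ v →
      ∑ p ∈ (Icc 1 v).filter (fun p => p.Prime ∧
        ∀ r ∈ Icc 1 R, r.Prime → r % (a + 1).minFac = 1 →
          ¬ r ∣ ∑ i ∈ range (a + 1).minFac, p ^ i), Real.log p ≤ ε * v := by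
    intro a
    by_cases ha : 1 ≤ a
    · obtain ⟨R, V0, h⟩ := h1 _ (hl a ha) ε hε
      exact ⟨R, V0, fun _ => h⟩
    · exact ⟨0, 0, fun h => absurd h ha⟩
  choose R V hRV using key
  refine ⟨(Icc 1 A0).sup R, (Icc 1 A0).sup V, fun a v ha haA hv => ?_⟩
  have hmem : a ∈ Icc 1 A0 := Finset.mem_Icc.2 ⟨ha, haA⟩
  have hR : R a ≤ (Icc 1 A0).sup R := Finset.le_sup hmem
  have hV : V a ≤ (Icc 1 A0).sup V := Finset.le_sup hmem
  refine le_trans (Finset.sum_le_sum_of_subset_of_nonneg ?_ ?_) (hRV a ha v (hV.trans hv))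
  · intro p hp
    rw [Finset.mem_filter] at hp ⊢
    refine ⟨hp.1, hp.2.1, fun r hr hrp _ hd => ?_⟩
    refine hp.2.2 r (Finset.mem_Icc.2 ⟨(Finset.mem_Icc.1 hr).1,
      (Finset.mem_Icc.1 hr).2.trans hR⟩) hrp ?_
    obtain ⟨m, hm⟩ := Nat.minFac_dvd (a + 1)
    have h2 := AVO_dvd p (a + 1).minFac m
    rw [← hm] at h2
    exact hd.trans h2
  · intro p _ _
    exact Real.log_natCast_nonneg p

end Pool.GRX
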