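import Pool.Agent.Work.MP_495a89_grx.Interface

set_option autoImplicit false

namespace Pool.GRX

open Finset Pool.GRO

theorem AVOx_geom (p l m : ℕ) : (∑ i ∈ range l, p ^ i) ∣ ∑ i ∈ range (l * m), p ^ i := by
  induction m with
  | zero => simp
  | succ m ih =>
    rw [Nat.mul_succ, Finset.sum_range_add]
    refine dvd_add ih ?_
    have : ∑ x ∈ range l, p ^ (l * m + x) = p ^ (l * m) * ∑ x ∈ range l, p ^ x := by
      rw [Finset.mul_sum]
      exact Finset.sum_congr rfl fun x _ => pow_add _ _ _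
    rw [this]
    exact Dvd.intro_left _ rfl

theorem p_AVOx (h1 : S_AVL) : S_AVO := by
  intro A0 ε hε
  have h : ∀ a : ℕ, ∃ R V0 : ℕ, 1 ≤ a → ∀ v : ℕ, V0 ≤ v →
      ∑ p ∈ (Icc 1 v).filter (fun p => p.Prime ∧
        ∀ r ∈ Icc 1 R, r.Prime → r % (a + 1).minFac = 1 →
          ¬ r ∣ ∑ i ∈ range (a + 1).minFac, p ^ i), Real.log p ≤ ε * v := by
    intro a
    by_cases ha : 1 ≤ a
    · obtain ⟨R, V0, h⟩ := h1 (a + 1).minFac (Nat.minFac_prime (by omega)) ε hε
      exact ⟨R, V0, fun _ => h⟩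
    · exact ⟨0, 0, fun h => absurd h ha⟩
  choose R V hRV using h
  refine ⟨∑ a ∈ range (A0 + 1), R a, ∑ a ∈ range (A0 + 1), V a, fun a v ha1 haA hv => ?_⟩
  have hmem : a ∈ range (A0 + 1) := mem_range.2 (by omega)
  have hR : R a ≤ ∑ a ∈ range (A0 + 1), R a :=
    Finset.single_le_sum (f := R) (fun i _ => Nat.zero_le _) hmem
  have hV : V a ≤ ∑ a ∈ range (A0 + 1), V a :=
    Finset.single_le_sum (f := V) (fun i _ => Nat.zero_le _) hmem
  obtain ⟨m, hm⟩ := Nat.minFac_dvd (a + 1)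
  refine le_trans (Finset.sum_le_sum_of_subset_of_nonneg ?_ ?_) (hRV a ha1 v (hV.trans hv))
  · intro p hp
    rw [mem_filter] at hp ⊢
    refine ⟨hp.1, hp.2.1, fun r hr hrp _ hdiv => ?_⟩
    refine hp.2.2 r ?_ hrp (hdiv.trans ?_)
    · rw [mem_Icc] at hr ⊢
      exact ⟨hr.1, hr.2.trans hR⟩
    · have h2 := AVOx_geom p (a + 1).minFac m
      rwa [← hm] at h2
  · intro p _ _
    exact Real.log_natCast_nonneg p

end Pool.GRX
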