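import Pool.Agent.Work.MP_495a89_grx.Interface

/-! Block CLS (helper25): Chinese remainder theorem. -/

set_option autoImplicit false

namespace Pool.GRX

open Finset Pool.GRO

/-- residues modulo `r` which remain -/
def CLS_G (l r : ℕ) : Finset ℕ := (range r).filter fun a => a ≠ 0 ∧ ¬ r ∣ ∑ i ∈ range l, a ^ i

theorem CLS_card (l r : ℕ) (hl : l.Prime) (hr : r.Prime) (hrl : r % l = 1) :
    (CLS_G l r).card ≤ r - l := by
  classical
  have : Fact r.Prime := ⟨hr⟩
  have : Fact l.Prime := ⟨hl⟩
  have hdvd : l ∣ Fintype.card (ZMod r)ˣ := by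
    rw [ZMod.card_units]
    have h := Nat.div_add_mod r l
    rw [hrl] at h
    exact ⟨r / l, by omega⟩
  obtain ⟨g, hg⟩ := exists_prime_orderOf_dvd_card l hdvd
  obtain ⟨B, hB⟩ : ∃ B : Finset ℕ, B = (Finset.Ico 1 l).image fun j => ((g ^ j : (ZMod r)ˣ) : ZMod r).val :=
    ⟨_, rfl⟩
  have hBcard : B.card = l - 1 := by
    rw [hB, Finset.card_image_of_injOn, Nat.card_Ico]
    intro i hi j hj hij
    have h1 : ((g ^ i : (ZMod r)ˣ) : ZMod r) = ((g ^ j : (ZMod r)ˣ) : ZMod r) :=
      ZMod.val_injective r hij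
    have h2 : g ^ i = g ^ j := Units.ext h1
    have hi' := Finset.mem_Ico.1 (Finset.mem_coe.1 hi)
    have hj' := Finset.mem_Ico.1 (Finset.mem_coe.1 hj)
    exact pow_injOn_Iio_orderOf (by rw [hg]; exact hi'.2) (by rw [hg]; exact hj'.2) h2
  have hBmem : ∀ a ∈ B, a < r ∧ a ≠ 0 ∧ r ∣ ∑ i ∈ range l, a ^ i := by
    intro a ha
    rw [hB, Finset.mem_image] at ha
    obtain ⟨j, hj, rfl⟩ := ha
    have hj' := Finset.mem_Ico.1 hj
    refine ⟨ZMod.val_lt _, ?_, ?_⟩
    · intro h0
      rw [ZMod.val_eq_zero] at h0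
      exact (Units.ne_zero _) h0
    · rw [← ZMod.natCast_eq_zero_iff]
      push_cast
      rw [ZMod.natCast_zmod_val]
      have hx1 : ((g : ZMod r) ^ j) ≠ 1 := by
        intro h
        have h2 : g ^ j = 1 := by
          apply Units.ext
          push_cast
          exact h
        have h3 : orderOf g ∣ j := orderOf_dvd_of_pow_eq_one h2
        rw [hg] at h3
        have := Nat.le_of_dvd (by omega) h3
        omega
      have hxl : ((g : ZMod r) ^ j) ^ l = 1 := by
        have h2 : (g ^ j) ^ l = 1 := by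
          rw [← pow_mul, mul_comm, pow_mul, ← hg, pow_orderOf_eq_one, one_pow]
        have h3 := congrArg (fun t : (ZMod r)ˣ => (t : ZMod r)) h2
        simpa using h3
      have h4 := geom_sum_mul ((g : ZMod r) ^ j) l
      rw [hxl, sub_self] at h4
      rcases mul_eq_zero.1 h4 with h5 | h5
      · exact h5
      · exact absurd (sub_eq_zero.1 h5) hx1
  have hsub : CLS_G l r ⊆ range r \ insert 0 B := by
    intro a ha
    rw [CLS_G, Finset.mem_filter] at ha
    rw [Finset.mem_sdiff, Finset.mem_insert, not_or]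
    refine ⟨ha.1, ha.2.1, fun hb => ha.2.2 (hBmem a hb).2.2⟩
  have h0B : 0 ∉ B := fun h => (hBmem 0 h).2.1 rfl
  have hsub2 : insert 0 B ⊆ range r := by
    intro a ha
    rw [Finset.mem_insert] at ha
    rcases ha with rfl | ha
    · exact Finset.mem_range.2 hr.pos
    · exact Finset.mem_range.2 (hBmem a ha).1
  have h1 := Finset.card_le_card hsub
  rw [Finset.card_sdiff_of_subset hsub2, Finset.card_insert_of_notMem h0B, hBcard,
    Finset.card_range] at h1
  have := hl.one_lt
  omega

theorem p_CLS : S_CLS := by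
  classical
  intro l hl S hS
  have h1 : ((range (∏ r ∈ S, r)).filter (fun u => u.Coprime (∏ r ∈ S, r) ∧
      ∀ r ∈ S, ¬ r ∣ ∑ i ∈ range l, u ^ i)).card ≤ (S.pi fun r => CLS_G l r).card := by
    apply Finset.card_le_card_of_injOn (fun u => fun r _ => u % r)
    · intro u hu
      rw [Finset.mem_coe, Finset.mem_filter, Finset.mem_range] at hu
      rw [Finset.mem_coe, Finset.mem_pi]
      intro r hr
      have hrp := (hS r hr).1
      rw [CLS_G, Finset.mem_filter, Finset.mem_range]
      refine ⟨Nat.mod_lt _ hrp.pos, ?_, ?_⟩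
      · intro h0
        have h2 : r ∣ u := Nat.dvd_of_mod_eq_zero h0
        have h3 : r ∣ ∏ r ∈ S, r := Finset.dvd_prod_of_mem (fun r => r) hr
        have h4 : r ∣ 1 := by
          rw [← hu.2.1]
          exact Nat.dvd_gcd h2 h3
        exact hrp.one_lt.ne' (Nat.dvd_one.1 h4)
      · intro hd
        apply hu.2.2 r hr
        rw [← ZMod.natCast_eq_zero_iff] at hd ⊢
        push_cast at hd ⊢
        simpa [ZMod.natCast_mod] using hd
    · intro u hu u' hu' huu
      rw [Finset.mem_coe, Finset.mem_filter, Finset.mem_range] at hu hu'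
      have hmod : ∀ r ∈ S, u % r = u' % r := fun r hr => congrFun (congrFun huu r) hr
      have key : ∀ a b : ℕ, a < ∏ r ∈ S, r → b < ∏ r ∈ S, r → (∀ r ∈ S, a % r = b % r) →
          a ≤ b → a = b := by
        intro a b ha hb hab hle
        have hd : ∏ r ∈ S, r ∣ b - a := by
          apply Finset.prod_primes_dvd
          · intro r hr
            exact (hS r hr).1.prime
          · intro r hr
            exact (Nat.modEq_iff_dvd' hle).1 (hab r hr)
        by_contra hne
        have := Nat.le_of_dvd (by omega) hd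
        omega
      rcases le_total u u' with h | h
      · exact key u u' hu.1 hu'.1 hmod h
      · exact (key u' u hu'.1 hu.1 (fun r hr => (hmod r hr).symm) h).symm
  refine h1.trans ?_
  rw [Finset.card_pi]
  exact Finset.prod_le_prod' fun r hr => CLS_card l r hl (hS r hr).1 (hS r hr).2

end Pool.GRX
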