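import Pool.Agent.Work.MP_495a89_grx.Interface

/-! Block CLS, second copy (helper9). -/

set_option autoImplicit false

namespace Pool.GRX

open Finset Pool.GRO

theorem CLSx_zmod (l r : ℕ) (hl : l.Prime) (hr : r.Prime) (h : r % l = 1) :
    (((range r).filter (fun x => x ≠ 0 ∧ ¬ r ∣ ∑ i ∈ range l, x ^ i)).card) ≤ r - l := by
  classical
  have : Fact r.Prime := ⟨hr⟩
  have : NeZero r := ⟨hr.ne_zero⟩
  set A' : Finset (ZMod r) := univ.filter (fun x : ZMod r => x ≠ 0 ∧ ∑ i ∈ range l, x ^ i ≠ 0)
    with hA'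
  have h1 : ((range r).filter (fun x => x ≠ 0 ∧ ¬ r ∣ ∑ i ∈ range l, x ^ i)).card ≤ A'.card := by
    apply Finset.card_le_card_of_injOn (fun x : ℕ => (x : ZMod r))
    · intro x hx
      have hx' := Finset.mem_filter.1 (Finset.mem_coe.1 hx)
      rw [Finset.mem_coe, hA', Finset.mem_filter]
      refine ⟨Finset.mem_univ _, ?_, ?_⟩
      · intro h0
        rw [ZMod.natCast_eq_zero_iff] at h0
        have := Nat.le_of_dvd (Nat.pos_of_ne_zero hx'.2.1) h0
        have := Finset.mem_range.1 hx'.1
        omega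
      · intro h0
        apply hx'.2.2
        rw [← ZMod.natCast_eq_zero_iff]
        push_cast
        exact h0
    · intro x hx y hy hxy
      have hx' := Finset.mem_range.1 (Finset.mem_filter.1 (Finset.mem_coe.1 hx)).1
      have hy' := Finset.mem_range.1 (Finset.mem_filter.1 (Finset.mem_coe.1 hy)).1
      have h2 := (ZMod.natCast_eq_natCast_iff' x y r).1 hxy
      rwa [Nat.mod_eq_of_lt hx', Nat.mod_eq_of_lt hy'] at h2
  have hdvd : l ∣ r - 1 := (Nat.modEq_iff_dvd' hr.one_le).1 (by
    show 1 % l = r % l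
    rw [h, Nat.mod_eq_of_lt hl.one_lt])
  set U : Finset (ZMod r)ˣ := univ.filter (fun a => orderOf a = l) with hU
  have hUc : U.card = l - 1 := by
    rw [hU, IsCyclic.card_orderOf_eq_totient (by rw [ZMod.card_units]; exact hdvd),
      Nat.totient_prime hl]
  set B : Finset (ZMod r) := insert 0 (U.image (fun a : (ZMod r)ˣ => (a : ZMod r))) with hB
  have hBc : B.card = l := by
    rw [hB, Finset.card_insert_of_notMem, Finset.card_image_of_injective _ Units.val_injective, hUc]
    · have := hl.one_lt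
      omega
    · intro h0
      obtain ⟨a, -, ha⟩ := Finset.mem_image.1 h0
      exact a.ne_zero ha
  have hdis : Disjoint A' B := by
    rw [Finset.disjoint_left]
    intro x hx hxB
    have hx' := (Finset.mem_filter.1 hx).2
    rcases Finset.mem_insert.1 hxB with h0 | h0
    · exact hx'.1 h0
    · obtain ⟨a, ha, rfl⟩ := Finset.mem_image.1 h0
      have ha2 := (Finset.mem_filter.1 ha).2
      apply hx'.2
      have h3 : ((a : ZMod r)) ^ l = 1 := by
        have h4 := pow_orderOf_eq_one a
        rw [ha2] at h4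
        have h5 := congrArg (fun b : (ZMod r)ˣ => (b : ZMod r)) h4
        simpa using h5
      have h6 : (a : ZMod r) - 1 ≠ 0 := by
        intro h7
        have h8 : (a : ZMod r) = 1 := sub_eq_zero.1 h7
        have h9 : a = 1 := Units.ext (by simpa using h8)
        rw [h9, orderOf_one] at ha2
        exact hl.one_lt.ne ha2
      have h10 := mul_geom_sum (a : ZMod r) l
      rw [h3, sub_self] at h10
      exact (mul_eq_zero.1 h10).resolve_left h6
  have h4 : A'.card + B.card ≤ r := by
    rw [← Finset.card_union_of_disjoint hdis]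
    have h5 := Finset.card_le_univ (A' ∪ B)
    rwa [ZMod.card] at h5
  omega

theorem p_CLSx : S_CLS := by
  classical
  intro l hl S hS
  have key : ((range (∏ r ∈ S, r)).filter (fun u => u.Coprime (∏ r ∈ S, r) ∧
      ∀ r ∈ S, ¬ r ∣ ∑ i ∈ range l, u ^ i)).card ≤
      (S.pi (fun r => (range r).filter (fun x => x ≠ 0 ∧ ¬ r ∣ ∑ i ∈ range l, x ^ i))).card := by
    apply Finset.card_le_card_of_injOn (fun u r _ => u % r)
    · intro u hu
      have hu' := Finset.mem_filter.1 (Finset.mem_coe.1 hu)
      rw [Finset.mem_coe, Finset.mem_pi]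
      intro r hr
      have hrp := (hS r hr).1
      rw [Finset.mem_filter, Finset.mem_range]
      refine ⟨Nat.mod_lt _ hrp.pos, ?_, ?_⟩
      · intro h0
        have h1 : r ∣ u := Nat.dvd_of_mod_eq_zero h0
        have h2 : r ∣ ∏ r ∈ S, r := Finset.dvd_prod_of_mem (fun r => r) hr
        have h3 := Nat.dvd_gcd h1 h2
        rw [hu'.2.1] at h3
        exact hrp.one_lt.ne' (Nat.dvd_one.1 h3)
      · intro h0
        apply hu'.2.2 r hr
        rw [← ZMod.natCast_eq_zero_iff] at h0 ⊢
        push_cast at h0 ⊢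
        rw [ZMod.natCast_mod] at h0
        exact h0
    · intro u hu v hv huv
      have hu' := Finset.mem_range.1 (Finset.mem_filter.1 (Finset.mem_coe.1 hu)).1
      have hv' := Finset.mem_range.1 (Finset.mem_filter.1 (Finset.mem_coe.1 hv)).1
      have h1 : ∀ r ∈ S, (r : ℤ) ∣ (v : ℤ) - u := by
        intro r hr
        have h2 : u % r = v % r := congrFun (congrFun huv r) hr
        exact (Nat.modEq_iff_dvd.1 h2)
      have h2 : (∏ r ∈ S, (r : ℤ)) ∣ (v : ℤ) - u := by
        apply Finset.prod_dvd_of_coprime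
        · intro a ha b hb hab
          exact Nat.isCoprime_iff_coprime.2 ((Nat.coprime_primes (hS a ha).1 (hS b hb).1).2 hab)
        · exact h1
      have h3 : u ≡ v [MOD ∏ r ∈ S, r] := by
        rw [Nat.modEq_iff_dvd]
        push_cast
        exact h2
      have h4 : u % (∏ r ∈ S, r) = v % (∏ r ∈ S, r) := h3
      rwa [Nat.mod_eq_of_lt hu', Nat.mod_eq_of_lt hv'] at h4
  refine key.trans ?_
  rw [Finset.card_pi]
  exact Finset.prod_le_prod' fun r hr => CLSx_zmod l r hl (hS r hr).1 (hS r hr).2

end Pool.GRX
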