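import Pool.Agent.Work.MP_495a89_grx.Interface

/-! DIV: the sum of the reciprocals of the primes `r ≡ 1 (mod l)` diverges.  If it converges, then
`∑ log r / r ^ (1 + δ) ≤ O(1) + (1/δ) ∑_{r ≥ N} 1/r` since `log r ≤ r ^ δ / δ`; but this sum is at
least `1 / (φ(l) δ) - O(1)` (Mathlib, Dirichlet's theorem). -/

set_option autoImplicit false

namespace Pool.GRX

open Finset Pool.GRO

theorem DIV_log_le (n : ℕ) (δ : ℝ) (hδ : 0 < δ) (hn : 1 ≤ n) :
    Real.log n / (n : ℝ) ^ δ ≤ 1 / δ := by
  have h := Real.log_le_rpow_div (x := (n : ℝ)) (ε := δ) (Nat.cast_nonneg n) hδ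
  have hp : (0 : ℝ) < (n : ℝ) ^ δ := Real.rpow_pos_of_pos (by exact_mod_cast hn) δ
  rw [div_le_div_iff₀ hp hδ, one_mul]
  have h1 := mul_le_mul_of_nonneg_right h hδ.le
  rwa [div_mul_cancel₀ _ hδ.ne'] at h1

theorem DIV_pt (l : ℕ) (hl : l.Prime) (N : ℕ) (δ : ℝ) (hδ : 0 < δ) (g low : ℕ → ℝ)
    (hg : ∀ n, g n = if n.Prime ∧ n % l = 1 then 1 / (n : ℝ) else 0)
    (hlow : ∀ n, low n = if n < N then g n else 0) (n : ℕ) :
    ArithmeticFunction.vonMangoldt.residueClass (1 : ZMod l) n / (n : ℝ) ^ (1 + δ) ≤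
      (if n.Prime then 0 else ArithmeticFunction.vonMangoldt.residueClass (1 : ZMod l) n) / (n : ℝ) +
        (Real.log N * low n + 1 / δ * (g n - low n)) := by
  have hg0 : ∀ n, 0 ≤ g n := by
    intro n
    rw [hg]
    split_ifs
    · positivity
    · exact le_rfl
  have hlow0 : ∀ n, 0 ≤ low n := by
    intro n
    rw [hlow]
    split_ifs
    · exact hg0 n
    · exact le_rfl
  have hlg : ∀ n, low n ≤ g n := by
    intro n
    rw [hlow]
    split_ifs
    · exact le_rfl
    · exact hg0 n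
  have hh0 : 0 ≤ Real.log N * low n + 1 / δ * (g n - low n) :=
    add_nonneg (mul_nonneg (Real.log_natCast_nonneg N) (hlow0 n))
      (mul_nonneg (by positivity) (sub_nonneg.2 (hlg n)))
  have hr0 := ArithmeticFunction.vonMangoldt.residueClass_nonneg (1 : ZMod l) n
  rcases Nat.eq_zero_or_pos n with h0 | hn
  · subst h0
    rw [ArithmeticFunction.vonMangoldt.residueClass_apply_zero, zero_div]
    refine add_nonneg (div_nonneg ?_ (by positivity)) hh0
    split_ifs
    · exact le_rfl
    · exact le_rfl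
  have hn1 : (1 : ℝ) ≤ n := by exact_mod_cast hn
  have hn0 : (0 : ℝ) < n := by linarith
  have hpow : (n : ℝ) ^ (1 + δ) = n * (n : ℝ) ^ δ := by
    rw [Real.rpow_add hn0, Real.rpow_one]
  have hpd : (1 : ℝ) ≤ (n : ℝ) ^ δ := Real.one_le_rpow hn1 hδ.le
  by_cases hp : n.Prime
  · rw [if_pos hp, zero_div, zero_add]
    by_cases hm : (n : ZMod l) = 1
    · have hm' : n % l = 1 := by
        have h1 : ((n : ℕ) : ZMod l) = ((1 : ℕ) : ZMod l) := by rw [hm, Nat.cast_one]
        rw [ZMod.natCast_eq_natCast_iff'] at h1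
        rw [h1, Nat.mod_eq_of_lt hl.one_lt]
      have hgn : g n = 1 / (n : ℝ) := by rw [hg, if_pos ⟨hp, hm'⟩]
      have hrn : ArithmeticFunction.vonMangoldt.residueClass (1 : ZMod l) n = Real.log n := by
        unfold ArithmeticFunction.vonMangoldt.residueClass
        rw [Set.indicator_of_mem (by exact hm)]
        exact ArithmeticFunction.vonMangoldt_apply_prime hp
      rw [hrn, hpow]
      have hlogn : 0 ≤ Real.log n := Real.log_natCast_nonneg n
      have hsplit : Real.log n / ((n : ℝ) * (n : ℝ) ^ δ) = 1 / (n : ℝ) * (Real.log n / (n : ℝ) ^ δ) := by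
        rw [div_mul_div_comm, one_mul]
      rw [hsplit]
      by_cases hN : n < N
      · have hln : low n = g n := by rw [hlow, if_pos hN]
        rw [hln, sub_self, mul_zero, add_zero, hgn, mul_comm]
        refine mul_le_mul_of_nonneg_right ?_ (by positivity)
        calc Real.log n / (n : ℝ) ^ δ ≤ Real.log n := div_le_self hlogn hpd
          _ ≤ Real.log N := Real.log_le_log hn0 (by exact_mod_cast hN.le)
      · have hln : low n = 0 := by rw [hlow, if_neg hN]
        rw [hln, mul_zero, zero_add, sub_zero, hgn, mul_comm]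
        exact mul_le_mul_of_nonneg_right (DIV_log_le n δ hδ hn) (by positivity)
    · have hrn : ArithmeticFunction.vonMangoldt.residueClass (1 : ZMod l) n = 0 := by
        unfold ArithmeticFunction.vonMangoldt.residueClass
        exact Set.indicator_of_notMem (by exact hm) _
      rw [hrn, zero_div]
      exact hh0
  · rw [if_neg hp]
    refine le_add_of_le_of_nonneg ?_ hh0
    refine div_le_div_of_nonneg_left hr0 hn0 ?_
    rw [hpow]
    exact le_mul_of_one_le_right hn0.le hpd

theorem p_DIV : S_DIV := by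
  intro l hl M
  by_contra hcon
  push Not at hcon
  have : NeZero l := ⟨hl.ne_zero⟩
  obtain ⟨g, hg⟩ : ∃ g : ℕ → ℝ, ∀ n, g n = if n.Prime ∧ n % l = 1 then 1 / (n : ℝ) else 0 :=
    ⟨_, fun _ => rfl⟩
  have hg0 : ∀ n, 0 ≤ g n := by
    intro n
    rw [hg]
    split_ifs
    · positivity
    · exact le_rfl
  have hgs : Summable g := by
    refine summable_of_sum_range_le (c := M) hg0 fun n => ?_
    have h2 : ∑ i ∈ range n, g i =
        ∑ r ∈ (range n).filter (fun r => r.Prime ∧ r % l = 1), 1 / (r : ℝ) := by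
      rw [Finset.sum_filter]
      exact Finset.sum_congr rfl fun i _ => hg i
    rw [h2]
    refine (Finset.sum_le_sum_of_subset_of_nonneg ?_ ?_).trans (hcon n).le
    · intro r hr
      rw [mem_filter, mem_range] at hr
      rw [mem_filter, mem_Icc]
      exact ⟨⟨hr.2.1.one_lt.le, hr.1.le⟩, hr.2⟩
    · intro r _ _
      positivity
  obtain ⟨C, hC⟩ := ArithmeticFunction.vonMangoldt.LSeries_residueClass_lower_bound
    (isUnit_one : IsUnit (1 : ZMod l))
  have hnp := ArithmeticFunction.vonMangoldt.summable_residueClass_non_primes_div (1 : ZMod l)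
  obtain ⟨φ, hφ⟩ : ∃ φ : ℝ, φ = (l.totient : ℝ)⁻¹ := ⟨_, rfl⟩
  have hφ0 : 0 < φ := by
    rw [hφ]
    have : 0 < l.totient := Nat.totient_pos.2 hl.pos
    positivity
  obtain ⟨N, hN⟩ : ∃ N : ℕ, ∑' n, g n - ∑ i ∈ range N, g i < φ / 2 := by
    have h1 := hgs.hasSum.tendsto_sum_nat
    have h2 := h1.eventually (lt_mem_nhds (show ∑' n, g n - φ / 2 < ∑' n, g n by linarith))
    obtain ⟨N, hN⟩ := h2.exists
    exact ⟨N, by linarith⟩
  obtain ⟨low, hlow⟩ : ∃ low : ℕ → ℝ, ∀ n, low n = if n < N then g n else 0 := ⟨_, fun _ => rfl⟩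
  have hlow0 : ∀ n, 0 ≤ low n := by
    intro n
    rw [hlow]
    split_ifs
    · exact hg0 n
    · exact le_rfl
  have hlg : ∀ n, low n ≤ g n := by
    intro n
    rw [hlow]
    split_ifs
    · exact le_rfl
    · exact hg0 n
  have hls : Summable low := Summable.of_nonneg_of_le hlow0 hlg hgs
  have hL : ∑ i ∈ range N, g i ≤ ∑' n, low n := by
    have h1 : ∑ i ∈ range N, low i = ∑ i ∈ range N, g i :=
      Finset.sum_congr rfl fun i hi => by rw [hlow, if_pos (mem_range.1 hi)]
    rw [← h1]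
    exact hls.sum_le_tsum _ fun i _ => hlow0 i
  have hL2 : ∑' n, low n ≤ ∑' n, g n := hls.tsum_le_tsum hlg hgs
  obtain ⟨K, hK⟩ : ∃ K : ℝ, K = C + ∑' n : ℕ, (if n.Prime then 0 else
      ArithmeticFunction.vonMangoldt.residueClass (1 : ZMod l) n) / (n : ℝ) +
        Real.log N * ∑' n, g n := ⟨_, rfl⟩
  have main : ∀ δ : ℝ, 0 < δ → δ ≤ 1 → φ / 2 / δ ≤ K := by
    intro δ hδ hδ1
    have h1 := hC (x := 1 + δ) ⟨by linarith, by linarith⟩
    rw [← hφ, add_sub_cancel_left] at h1
    have hhs : Summable fun n => Real.log N * low n + 1 / δ * (g n - low n) :=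
      (hls.mul_left _).add ((hgs.sub hls).mul_left _)
    have hRs := hnp.add hhs
    have hLs : Summable fun n : ℕ =>
        ArithmeticFunction.vonMangoldt.residueClass (1 : ZMod l) n / (n : ℝ) ^ (1 + δ) :=
      Summable.of_nonneg_of_le (fun n => div_nonneg
        (ArithmeticFunction.vonMangoldt.residueClass_nonneg (1 : ZMod l) n) (by positivity))
        (DIV_pt l hl N δ hδ g low hg hlow) hRs
    have h2 := hLs.tsum_le_tsum (DIV_pt l hl N δ hδ g low hg hlow) hRs
    rw [hnp.tsum_add hhs] at h2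
    have h3 : ∑' n, (Real.log N * low n + 1 / δ * (g n - low n)) =
        Real.log N * ∑' n, low n + 1 / δ * (∑' n, g n - ∑' n, low n) := by
      rw [(hls.mul_left _).tsum_add ((hgs.sub hls).mul_left _), tsum_mul_left, tsum_mul_left,
        hgs.tsum_sub hls]
    rw [h3] at h2
    have h4 : Real.log N * ∑' n, low n ≤ Real.log N * ∑' n, g n :=
      mul_le_mul_of_nonneg_left hL2 (Real.log_natCast_nonneg N)
    have h5 : 1 / δ * (∑' n, g n - ∑' n, low n) ≤ 1 / δ * (φ / 2) :=
      mul_le_mul_of_nonneg_left (by linarith) (by positivity)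
    have h6 : φ / 2 / δ = φ / δ - 1 / δ * (φ / 2) := by
      field_simp
      ring
    rw [h6, hK]
    linarith
  have hKpos : 0 < |K| + 1 := by positivity
  have h7 := main (min 1 (φ / 2 / (|K| + 1))) (lt_min one_pos (by positivity)) (min_le_left _ _)
  have h8 : |K| + 1 ≤ φ / 2 / min 1 (φ / 2 / (|K| + 1)) := by
    rw [le_div_iff₀ (lt_min one_pos (by positivity))]
    calc (|K| + 1) * min 1 (φ / 2 / (|K| + 1)) ≤ (|K| + 1) * (φ / 2 / (|K| + 1)) :=
          mul_le_mul_of_nonneg_left (min_le_right _ _) hKpos.le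
      _ = φ / 2 := by
        field_simp
  have h9 := le_abs_self K
  linarith

end Pool.GRX
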