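import Pool.Agent.Work.MP_495a89_grx.Interface
import Pool.Agent.Work.MP_2738db_nt.PrimesDiv

set_option autoImplicit false

namespace Pool.GRX

open Finset Filter

theorem p_DIVx : S_DIV := by
  intro l hl M
  haveI : NeZero l := ⟨hl.ne_zero⟩
  have h := Pool.Agent.Work.MP_2738db_nt.tendsto_sum_recip (q := l) (a := 1) isUnit_one
  obtain ⟨y, hy⟩ := (h.eventually (eventually_ge_atTop M)).exists
  refine ⟨y, hy.trans ?_⟩
  have h1 : ∀ n : ℕ, Pool.Agent.Work.MP_2738db_nt.recip (1 : ZMod l) n =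
      if n.Prime ∧ n % l = 1 then 1 / (n : ℝ) else 0 := by
    intro n
    unfold Pool.Agent.Work.MP_2738db_nt.recip
    have e : ((n : ZMod l) = 1) ↔ n % l = 1 := by
      have h2 : ((n : ZMod l) = ((1 : ℕ) : ZMod l)) ↔ n ≡ 1 [MOD l] :=
        ZMod.natCast_eq_natCast_iff _ _ _
      rw [Nat.cast_one] at h2
      rw [h2]
      unfold Nat.ModEq
      rw [Nat.mod_eq_of_lt hl.one_lt]
    by_cases hn : n.Prime ∧ n % l = 1
    · rw [if_pos hn, if_pos ⟨hn.1, e.2 hn.2⟩]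
    · rw [if_neg hn, if_neg (fun hh => hn ⟨hh.1, e.1 hh.2⟩)]
  rw [Finset.sum_congr rfl fun n _ => h1 n, ← Finset.sum_filter]
  refine Finset.sum_le_sum_of_subset_of_nonneg ?_ fun n _ _ => by positivity
  intro n hn
  rw [Finset.mem_filter, Finset.mem_range] at hn
  rw [Finset.mem_filter, Finset.mem_Icc]
  exact ⟨⟨hn.2.1.one_lt.le, by omega⟩, hn.2⟩

end Pool.GRX
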