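import Pool.Agent.Work.MP_495a89_grx.Interface

set_option autoImplicit false

namespace Pool.GRX

open Finset Pool.GRO

theorem EXT_mono {x z : ℝ} (hx : Real.exp 1 ≤ x) (hxz : x ≤ z) :
    x / Real.log x ≤ z / Real.log z := by
  have h1 := Real.log_div_self_antitoneOn (Set.mem_setOf_eq ▸ hx : x ∈ {x | Real.exp 1 ≤ x})
    (Set.mem_setOf_eq ▸ (hx.trans hxz) : z ∈ {x | Real.exp 1 ≤ x}) hxz
  have hx0 : 0 < x := lt_of_lt_of_le (Real.exp_pos 1) hx
  have hz0 : 0 < z := lt_of_lt_of_le hx0 hxz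
  have hlx : 1 ≤ Real.log x := by
    rw [Real.le_log_iff_exp_le hx0]; exact hx
  have hlz : 1 ≤ Real.log z := by
    rw [Real.le_log_iff_exp_le hz0]; exact hx.trans hxz
  simp only at h1
  rw [div_le_div_iff₀ hz0 hx0] at h1
  rw [div_le_div_iff₀ (by linarith) (by linarith)]
  linarith

theorem EXT_large (d : ℝ) (hd : 0 < d) (V : ℝ) : ∃ Y0 : ℝ, V ≤ Y0 ∧ ∀ y : ℝ, Y0 ≤ y →
    Real.log y ^ 2 ≤ d * y ∧ V ≤ Real.log y := by
  have h1 : ∀ᶠ y : ℝ in Filter.atTop, ‖Real.log y ^ 2‖ ≤ d * ‖id y‖ :=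
    (Real.isLittleO_pow_log_id_atTop (n := 2)).def hd
  have h2 : ∀ᶠ y : ℝ in Filter.atTop, V ≤ Real.log y :=
    Real.tendsto_log_atTop.eventually_ge_atTop V
  obtain ⟨a, ha⟩ := Filter.eventually_atTop.mp (h1.and h2)
  refine ⟨max (max a 1) V, le_max_right _ _, fun y hy => ?_⟩
  have hya : a ≤ y := ((le_max_left a 1).trans (le_max_left _ V)).trans hy
  have hy1 : 1 ≤ y := ((le_max_right a 1).trans (le_max_left _ V)).trans hy
  obtain ⟨h3, h4⟩ := ha y hya
  refine ⟨?_, h4⟩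
  rw [Real.norm_of_nonneg (by positivity), id, Real.norm_of_nonneg (by linarith)] at h3
  exact h3

theorem EXT_pig {ι : Type*} (s : Finset ι) (f : ι → ℝ) (M : ℝ) (hM : 0 < M) (q : ℝ) (hq : 0 < q)
    (hcard : (s.card : ℝ) ≤ q) (h : M ≤ ∑ i ∈ s, f i) : ∃ i ∈ s, M / q ≤ f i := by
  by_contra hcon
  push_neg at hcon
  have hne : s.Nonempty := by
    rw [Finset.nonempty_iff_ne_empty]
    rintro rfl
    simp at h
    linarith
  have h1 : ∑ i ∈ s, f i < ∑ i ∈ s, M / q := Finset.sum_lt_sum_of_nonempty hne hcon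
  rw [Finset.sum_const, nsmul_eq_mul] at h1
  have h2 : (s.card : ℝ) * (M / q) ≤ q * (M / q) :=
    mul_le_mul_of_nonneg_right hcard (by positivity)
  rw [mul_div_cancel₀ _ hq.ne'] at h2
  linarith

theorem EXT_bu (s : Finset ℕ) (t : ℕ → Finset ℕ) (f : ℕ → ℝ) (hf : ∀ p, 0 ≤ f p) :
    ∑ p ∈ s.biUnion t, f p ≤ ∑ r ∈ s, ∑ p ∈ t r, f p := by
  induction s using Finset.induction_on with
  | empty => simp
  | insert a s ha ih =>
    rw [Finset.biUnion_insert, Finset.sum_insert ha]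
    have h1 := Finset.sum_union_inter (s₁ := t a) (s₂ := s.biUnion t) (f := f)
    have h0 : 0 ≤ ∑ p ∈ t a ∩ s.biUnion t, f p := Finset.sum_nonneg fun p _ => hf p
    linarith

theorem p_EXT (h1 : S_WIN) (h2 : S_PIG) (h3 : S_AVO) (h4 : S_NRR) : S_EXT := by
  classical
  intro C hC
  obtain ⟨c1, hc1, K0, hW⟩ := h1 C hC
  obtain ⟨A0, c2, hc2, hP⟩ := h2 C c1 hC hc1
  obtain ⟨R, V0, hA⟩ := h3 A0 (c2 / 2) (by positivity)
  set g := Real.eulerMascheroniConstant with hg
  have hg0 : 0 < g := by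
    have := Real.one_half_lt_eulerMascheroniConstant
    linarith
  set q : ℝ := (R : ℝ) + 1 with hq
  have hq0 : 0 < q := by positivity
  set C' : ℝ := max C 1 with hC'
  have hC'1 : 1 ≤ C' := le_max_right _ _
  have hCC' : C ≤ C' := le_max_left _ _
  set d : ℝ := c2 / (4 * q * Real.exp g) with hd
  have hd0 : 0 < d := by positivity
  obtain ⟨Y0, hY0, hY⟩ := EXT_large d hd0 ((V0 : ℝ) + (K0 : ℝ) + 3)
  refine ⟨R, c2 / (4 * q * C'), ⌈Real.exp (max (C * Y0) (Real.exp 1))⌉₊ + 1, by positivity, ?_⟩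
  intro n k hn hs hlog
  have hn0 : Real.exp (max (C * Y0) (Real.exp 1)) ≤ n := by
    have h5 := Nat.le_ceil (Real.exp (max (C * Y0) (Real.exp 1)))
    have h6 : ((⌈Real.exp (max (C * Y0) (Real.exp 1))⌉₊ + 1 : ℕ) : ℝ) ≤ n := by exact_mod_cast hn
    push_cast at h6
    linarith
  have hnpos : (0 : ℝ) < n := lt_of_lt_of_le (Real.exp_pos _) hn0
  have hn1 : 1 ≤ n := by
    have : 0 < n := by exact_mod_cast hnpos
    omega
  have hln : max (C * Y0) (Real.exp 1) ≤ Real.log n := by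
    rw [Real.le_log_iff_exp_le hnpos]; exact hn0
  have hlnY : C * Y0 ≤ Real.log n := (le_max_left _ _).trans hln
  have hlne : Real.exp 1 ≤ Real.log n := (le_max_right _ _).trans hln
  change Real.log n ≤ C * yy k at hlog
  obtain ⟨y, hyy⟩ : ∃ y, y = yy k := ⟨_, rfl⟩
  have hyY0 : Y0 ≤ y := by
    have h5 : C * Y0 ≤ C * y := by rw [hyy]; exact hlnY.trans hlog
    exact le_of_mul_le_mul_left h5 hC
  obtain ⟨hy2, hyl⟩ := hY y hyY0
  have hV0n : (0 : ℝ) ≤ V0 := Nat.cast_nonneg _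
  have hK0n : (0 : ℝ) ≤ K0 := Nat.cast_nonneg _
  have hy3 : 3 ≤ y := by linarith
  have hypos : 0 < y := by linarith
  have hly : Real.log y = Real.exp (-g) * k := by
    rw [hyy, yy, Real.log_exp]
  have hl3 : 3 ≤ Real.log y := by linarith
  have hkl : (k : ℝ) = Real.exp g * Real.log y := by
    rw [hly, ← mul_assoc, ← Real.exp_add, add_neg_cancel, Real.exp_zero, one_mul]
  have hk_ge : Real.log y ≤ k := by
    rw [hly]
    have : Real.exp (-g) ≤ 1 := by
      rw [Real.exp_le_one_iff]; linarith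
    have hk0 : (0 : ℝ) ≤ k := Nat.cast_nonneg _
    nlinarith
  have hK : K0 ≤ k := by
    have : (K0 : ℝ) ≤ k := by linarith
    exact_mod_cast this
  have hkpos : 0 < k := by
    have : (0 : ℝ) < k := by linarith
    exact_mod_cast this
  have hw := hW n k hn1 hs hK hlog
  rw [← hyy] at hw hlog
  obtain ⟨a, ha1, haA, hmass⟩ := hP n ⌊y⌋₊ y hn1 hypos hlog hw
  have hv : V0 ≤ ⌊y⌋₊ := by
    apply Nat.le_floor
    linarith
  have havo := hA a ⌊y⌋₊ ha1 haA hv
  have hvy : ((⌊y⌋₊ : ℕ) : ℝ) ≤ y := Nat.floor_le hypos.le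
  -- the sets
  obtain ⟨P, hPdef⟩ : ∃ P : Finset ℕ,
    P = n.primeFactors.filter (fun p => p ≤ ⌊y⌋₊ ∧ n.factorization p = a) := ⟨_, rfl⟩
  rw [← hPdef] at hmass
  obtain ⟨B, hBdef⟩ : ∃ B : Finset ℕ, B = (Icc 1 ⌊y⌋₊).filter (fun p => p.Prime ∧
    ∀ r ∈ Icc 1 R, r.Prime → ¬ r ∣ ∑ i ∈ range (a + 1), p ^ i) := ⟨_, rfl⟩
  obtain ⟨G, hGdef⟩ : ∃ G : ℕ → Finset ℕ,
    G = fun r => P.filter (fun p => r ∣ ∑ i ∈ range (a + 1), p ^ i) := ⟨_, rfl⟩
  obtain ⟨RR, hRR⟩ : ∃ RR : Finset ℕ, RR = (Icc 1 R).filter Nat.Prime := ⟨_, rfl⟩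
  have hPprime : ∀ p ∈ P, p.Prime := by
    intro p hp
    rw [hPdef, mem_filter] at hp
    exact Nat.prime_of_mem_primeFactors hp.1
  have hPle : ∀ p ∈ P, p ≤ ⌊y⌋₊ := by
    intro p hp
    rw [hPdef, mem_filter] at hp
    exact hp.2.1
  have hsub : P ⊆ B ∪ RR.biUnion G := by
    intro p hp
    rw [mem_union]
    by_cases hb : ∀ r ∈ Icc 1 R, r.Prime → ¬ r ∣ ∑ i ∈ range (a + 1), p ^ i
    · left
      rw [hBdef, mem_filter, mem_Icc]
      exact ⟨⟨(hPprime p hp).one_le, hPle p hp⟩, hPprime p hp, hb⟩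
    · right
      push_neg at hb
      obtain ⟨r, hr1, hr2, hr3⟩ := hb
      rw [mem_biUnion]
      refine ⟨r, ?_, ?_⟩
      · rw [hRR, mem_filter]; exact ⟨hr1, hr2⟩
      · rw [hGdef]; exact mem_filter.mpr ⟨hp, hr3⟩
  have hlogn : ∀ p : ℕ, 0 ≤ Real.log p := fun p => Real.log_natCast_nonneg p
  have hs1 : ∑ p ∈ P, Real.log p ≤ ∑ p ∈ B, Real.log p + ∑ r ∈ RR, ∑ p ∈ G r, Real.log p := by
    calc ∑ p ∈ P, Real.log p ≤ ∑ p ∈ B ∪ RR.biUnion G, Real.log p :=
          Finset.sum_le_sum_of_subset_of_nonneg hsub (fun p _ _ => hlogn p)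
      _ ≤ ∑ p ∈ B, Real.log p + ∑ p ∈ RR.biUnion G, Real.log p := by
          rw [← Finset.sum_union_inter (s₁ := B)]
          have : 0 ≤ ∑ p ∈ B ∩ RR.biUnion G, Real.log p := Finset.sum_nonneg fun p _ => hlogn p
          linarith
      _ ≤ _ := by
          have := EXT_bu RR G (fun p : ℕ => Real.log (p : ℝ)) (fun p => hlogn p)
          linarith
  have hB : ∑ p ∈ B, Real.log p ≤ c2 / 2 * y := by
    rw [hBdef]
    refine havo.trans ?_
    exact mul_le_mul_of_nonneg_left hvy (by positivity)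
  have hM : c2 / 2 * y ≤ ∑ r ∈ RR, ∑ p ∈ G r, Real.log p := by
    have : c2 * y ≤ ∑ p ∈ P, Real.log p := hmass
    linarith
  have hcard : (RR.card : ℝ) ≤ q := by
    have h5 : RR.card ≤ R := by
      rw [hRR]
      refine (Finset.card_filter_le _ _).trans ?_
      rw [Nat.card_Icc]
      omega
    have h6 : (RR.card : ℝ) ≤ R := by exact_mod_cast h5
    linarith
  obtain ⟨r, hr, hrm⟩ := EXT_pig RR (fun r => ∑ p ∈ G r, Real.log p) (c2 / 2 * y) (by positivity)
    q hq0 hcard hM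
  rw [hRR, mem_filter, mem_Icc] at hr
  have hGr : ∑ p ∈ G r, Real.log p ≤ ((G r).card : ℝ) * Real.log y := by
    calc ∑ p ∈ G r, Real.log p ≤ ∑ p ∈ G r, Real.log y := by
          refine Finset.sum_le_sum fun p hp => ?_
          rw [hGdef] at hp
          have hpP : p ∈ P := (mem_filter.mp hp).1
          refine Real.log_le_log ?_ ?_
          · exact_mod_cast (hPprime p hpP).pos
          · have : (p : ℝ) ≤ (⌊y⌋₊ : ℕ) := by exact_mod_cast hPle p hpP
            linarith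
      _ = _ := by rw [Finset.sum_const, nsmul_eq_mul]
  have hnrr := h4 n r a ⌊y⌋₊ hn1 hr.2
  have hGcard : (G r).card ≤ (sg n).factorization r := by
    refine le_trans (Finset.card_le_card ?_) hnrr
    intro p hp
    rw [hGdef] at hp
    obtain ⟨hp1, hp2⟩ := mem_filter.mp hp
    rw [hPdef, mem_filter] at hp1
    rw [mem_filter]
    exact ⟨hp1.1, hp1.2, hp2⟩
  have hfac : (sg n).factorization r = k.factorization r + n.factorization r := by
    have : sg n = k * n := hs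
    rw [this, Nat.factorization_mul (by omega) (by omega)]
    rfl
  have hfk : k.factorization r ≤ k := (Nat.factorization_lt r (by omega)).le
  refine ⟨r, hr.2, hr.1.2, ?_⟩
  -- numbers
  have e1 : c2 / 2 * y / q ≤ ((G r).card : ℝ) * Real.log y := hrm.trans hGr
  have e2 : ((G r).card : ℝ) ≤ k + (n.factorization r : ℝ) := by
    have : (G r).card ≤ k + n.factorization r := by omega
    exact_mod_cast this
  have hlpos : 0 < Real.log y := by linarith
  have e3 : c2 / 2 * y / q / Real.log y ≤ k + (n.factorization r : ℝ) := by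
    rw [div_le_iff₀ hlpos]
    exact e1.trans (mul_le_mul_of_nonneg_right e2 hlpos.le)
  have e4 : (k : ℝ) ≤ c2 / (4 * q) * y / Real.log y := by
    rw [le_div_iff₀ hlpos, hkl]
    have : Real.exp g * Real.log y * Real.log y = Real.exp g * (Real.log y ^ 2) := by ring
    rw [this]
    have h7 : Real.exp g * (Real.log y ^ 2) ≤ Real.exp g * (d * y) :=
      mul_le_mul_of_nonneg_left hy2 (Real.exp_pos g).le
    have h8 : Real.exp g * (d * y) = c2 / (4 * q) * y := by
      rw [hd]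
      field_simp
    linarith
  have e5 : c2 / 2 * y / q / Real.log y = 2 * (c2 / (4 * q) * y / Real.log y) := by
    field_simp
    ring
  have e6 : c2 / (4 * q) * y / Real.log y ≤ (n.factorization r : ℝ) := by
    rw [e5] at e3
    linarith
  refine le_trans ?_ e6
  have hxz : Real.log n ≤ C' * y := hlog.trans (mul_le_mul_of_nonneg_right hCC' hypos.le)
  have e7 := EXT_mono hlne hxz
  have hC'y : y ≤ C' * y := by nlinarith
  have e8 : C' * y / Real.log (C' * y) ≤ C' * y / Real.log y := by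
    apply div_le_div_of_nonneg_left (by positivity) hlpos
    exact Real.log_le_log hypos hC'y
  have e9 : Real.log n / Real.log (Real.log n) ≤ C' * y / Real.log y := e7.trans e8
  calc c2 / (4 * q * C') * Real.log n / Real.log (Real.log n)
      = c2 / (4 * q * C') * (Real.log n / Real.log (Real.log n)) := by ring
    _ ≤ c2 / (4 * q * C') * (C' * y / Real.log y) :=
        mul_le_mul_of_nonneg_left e9 (by positivity)
    _ = c2 / (4 * q) * y / Real.log y := by
        field_simp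

end Pool.GRX
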