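import Pool.Agent.Work.MP_495a89_grx.Interface

set_option autoImplicit false

namespace Pool.GRX

open Finset Pool.GRO Filter

/-- second copy of block EXT -/
theorem p_EXTx (h1 : S_WIN) (h2 : S_PIG) (h3 : S_AVO) (h4 : S_NRR) : S_EXT := by
  classical
  intro C hC
  obtain ⟨c1, hc1, K0, hW⟩ := h1 C hC
  obtain ⟨A0, c', hc', hP⟩ := h2 C c1 hC hc1
  obtain ⟨R, V0, hA⟩ := h3 A0 (c' / 2) (by positivity)
  have hGpos : 0 < Real.exp (-Real.eulerMascheroniConstant) := Real.exp_pos _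
  set G := Real.exp (-Real.eulerMascheroniConstant) with hG
  have hR1 : (0:ℝ) < (R:ℝ) + 1 := by positivity
  have hδ : 0 < c' * G / (4 * ((R:ℝ) + 1)) := by positivity
  have e0 : ∀ᶠ y : ℝ in atTop, ‖Real.log y ^ 2‖ ≤ c' * G / (4 * ((R:ℝ) + 1)) * ‖y‖ :=
    (Real.isLittleO_pow_log_id_atTop (n := 2)).def hδ
  have e1 : ∀ᶠ y : ℝ in atTop, yy K0 ≤ y ∧ (V0:ℝ) + 1 ≤ y ∧ Real.exp 1 ≤ y ∧
      ‖Real.log y ^ 2‖ ≤ c' * G / (4 * ((R:ℝ) + 1)) * ‖y‖ := by
    filter_upwards [eventually_ge_atTop (yy K0), eventually_ge_atTop ((V0:ℝ) + 1),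
      eventually_ge_atTop (Real.exp 1), e0] with y a b c d
    exact ⟨a, b, c, d⟩
  obtain ⟨Y0, hY0⟩ := eventually_atTop.1 e1
  have e2 : ∀ᶠ n : ℕ in atTop, Y0 * C ≤ Real.log n ∧ Real.exp 1 * C ≤ Real.log n ∧
      1 / C ≤ Real.log n ∧ Real.exp 1 ≤ Real.log n ∧ 1 ≤ n := by
    have ht : Tendsto (fun n : ℕ => Real.log (n:ℝ)) atTop atTop :=
      Real.tendsto_log_atTop.comp tendsto_natCast_atTop_atTop
    filter_upwards [ht.eventually_ge_atTop (Y0 * C), ht.eventually_ge_atTop (Real.exp 1 * C),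
      ht.eventually_ge_atTop (1 / C), ht.eventually_ge_atTop (Real.exp 1),
      eventually_ge_atTop 1] with n a b c d e
    exact ⟨a, b, c, d, e⟩
  obtain ⟨N, hN⟩ := eventually_atTop.1 e2
  refine ⟨R, c' / (8 * ((R:ℝ) + 1) * C), N, by positivity, ?_⟩
  intro n k hn hs hk
  obtain ⟨n1, n2, n3, n4, n5⟩ := hN n hn
  have hyk : yy k = Real.exp (G * k) := rfl
  have hk' : Real.log n ≤ C * yy k := hk
  have hlogyk : Real.log (yy k) = G * k := by rw [hyk, Real.log_exp]
  have hK0' : yy K0 ≤ yy k → K0 ≤ k := by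
    intro hle
    by_contra hlt
    push Not at hlt
    have : yy k < yy K0 := by
      unfold yy
      apply Real.exp_lt_exp.2
      have : (k:ℝ) < K0 := by exact_mod_cast hlt
      exact mul_lt_mul_of_pos_left this hGpos
    linarith
  have hW' := hW n k n5 hs
  generalize yy k = y at *
  generalize hL : Real.log (n:ℝ) = L at *
  have hLpos : 0 < L := lt_of_lt_of_le (Real.exp_pos 1) n4
  obtain ⟨t, ht⟩ : ∃ t : ℝ, t = L / C := ⟨_, rfl⟩
  have htL : L = C * t := by rw [ht]; field_simp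
  have hty : t ≤ y := by rw [ht, div_le_iff₀ hC]; linarith [mul_comm C y]
  have hYt : Y0 ≤ t := by rw [ht, le_div_iff₀ hC]; exact n1
  have het : Real.exp 1 ≤ t := by rw [ht, le_div_iff₀ hC]; exact n2
  obtain ⟨y1, y2, y3, y4⟩ := hY0 y (hYt.trans hty)
  have hypos : 0 < y := lt_of_lt_of_le (Real.exp_pos 1) y3
  have htpos : 0 < t := lt_of_lt_of_le (Real.exp_pos 1) het
  have hlogy : 1 ≤ Real.log y := by
    rw [Real.le_log_iff_exp_le hypos]; exact y3
  have hlogy0 : 0 < Real.log y := lt_of_lt_of_le one_pos hlogy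
  have hkr : (k:ℝ) = Real.log y / G := by rw [hlogyk]; field_simp
  have hK : K0 ≤ k := hK0' y1
  have hkpos : k ≠ 0 := by
    rintro rfl
    rw [hlogyk] at hlogy0
    simp at hlogy0
  have hn0 : n ≠ 0 := by omega
  obtain ⟨v, hv⟩ : ∃ v : ℕ, v = ⌊y⌋₊ := ⟨_, rfl⟩
  have hV0v : V0 ≤ v := by rw [hv]; exact Nat.le_floor (by linarith)
  have hvy : (v:ℝ) ≤ y := by rw [hv]; exact Nat.floor_le hypos.le
  have hT : c1 * y ≤ T n 0 v := by rw [hv]; exact hW' hK hk'
  obtain ⟨a, ha1, ha2, haS⟩ := hP n v y n5 hypos (by rw [hL]; exact hk') hT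
  have hAv := hA a v ha1 ha2 hV0v
  obtain ⟨P, hPdef⟩ : ∃ P : Finset ℕ,
    P = n.primeFactors.filter (fun p => p ≤ v ∧ n.factorization p = a) := ⟨_, rfl⟩
  rw [← hPdef] at haS
  have hsplit := Finset.sum_filter_add_sum_filter_not P
    (fun p => ∀ r ∈ Icc 1 R, r.Prime → ¬ r ∣ ∑ i ∈ range (a + 1), p ^ i)
    (fun p => Real.log (p:ℝ))
  have hbad : ∑ p ∈ P.filter (fun p => ∀ r ∈ Icc 1 R, r.Prime →
      ¬ r ∣ ∑ i ∈ range (a + 1), p ^ i), Real.log (p:ℝ) ≤ c' / 2 * y := by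
    calc ∑ p ∈ P.filter (fun p => ∀ r ∈ Icc 1 R, r.Prime →
          ¬ r ∣ ∑ i ∈ range (a + 1), p ^ i), Real.log (p:ℝ)
        ≤ ∑ p ∈ (Icc 1 v).filter (fun p => p.Prime ∧ ∀ r ∈ Icc 1 R, r.Prime →
          ¬ r ∣ ∑ i ∈ range (a + 1), p ^ i), Real.log (p:ℝ) := by
          apply Finset.sum_le_sum_of_subset_of_nonneg
          · intro p hp
            obtain ⟨hp1, hp2⟩ := Finset.mem_filter.1 hp
            rw [hPdef] at hp1
            obtain ⟨hp3, hp4, hp5⟩ := Finset.mem_filter.1 hp1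
            have hpp := Nat.prime_of_mem_primeFactors hp3
            exact Finset.mem_filter.2 ⟨Finset.mem_Icc.2 ⟨hpp.one_lt.le, hp4⟩, hpp, hp2⟩
          · intro p hp _
            exact Real.log_natCast_nonneg p
      _ ≤ c' / 2 * v := hAv
      _ ≤ c' / 2 * y := mul_le_mul_of_nonneg_left hvy (by positivity)
  obtain ⟨U, hU⟩ : ∃ U : Finset ℕ, U = P.filter (fun p => ¬ ∀ r ∈ Icc 1 R, r.Prime →
      ¬ r ∣ ∑ i ∈ range (a + 1), p ^ i) := ⟨_, rfl⟩
  rw [← hU] at hsplit
  have hgood : c' / 2 * y ≤ ∑ p ∈ U, Real.log (p:ℝ) := by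
    linarith
  have hcard : ∑ p ∈ U, Real.log (p:ℝ) ≤ (U.card : ℝ) * Real.log y := by
    rw [← nsmul_eq_mul]
    apply Finset.sum_le_card_nsmul
    intro p hp
    rw [hU] at hp
    obtain ⟨hp1, _⟩ := Finset.mem_filter.1 hp
    rw [hPdef] at hp1
    obtain ⟨hp3, hp4, _⟩ := Finset.mem_filter.1 hp1
    have hpp := Nat.prime_of_mem_primeFactors hp3
    apply Real.log_le_log (by exact_mod_cast hpp.pos)
    exact le_trans (by exact_mod_cast hp4) hvy
  obtain ⟨F, hF⟩ : ∃ F : ℕ → Finset ℕ, F = fun r => n.primeFactors.filter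
    (fun p => (p ≤ v ∧ n.factorization p = a) ∧ r ∣ ∑ i ∈ range (a + 1), p ^ i) := ⟨_, rfl⟩
  obtain ⟨RS, hRS⟩ : ∃ RS : Finset ℕ, RS = (Icc 1 R).filter Nat.Prime := ⟨_, rfl⟩
  have hcover : U ⊆ RS.biUnion F := by
    intro p hp
    rw [hU] at hp
    obtain ⟨hp1, hp2⟩ := Finset.mem_filter.1 hp
    rw [hPdef] at hp1
    obtain ⟨hp3, hp4⟩ := Finset.mem_filter.1 hp1
    push Not at hp2
    obtain ⟨r, hr1, hr2, hr3⟩ := hp2
    rw [hRS, hF]
    exact Finset.mem_biUnion.2 ⟨r, Finset.mem_filter.2 ⟨hr1, hr2⟩,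
      Finset.mem_filter.2 ⟨hp3, hp4, hr3⟩⟩
  obtain ⟨B, hB⟩ : ∃ B : ℝ, B = c' * y / (2 * ((R:ℝ) + 1) * Real.log y) := ⟨_, rfl⟩
  have hBpos : 0 < B := by rw [hB]; positivity
  have hex : ∃ r ∈ RS, B ≤ ((F r).card : ℝ) := by
    by_contra hno
    push Not at hno
    have c3 : (U.card : ℝ) ≤ R * B := by
      calc (U.card : ℝ) ≤ ((RS.biUnion F).card : ℝ) := by
            exact_mod_cast Finset.card_le_card hcover
        _ ≤ ((∑ r ∈ RS, (F r).card : ℕ) : ℝ) := by exact_mod_cast Finset.card_biUnion_le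
        _ = ∑ r ∈ RS, ((F r).card : ℝ) := by push_cast; rfl
        _ ≤ ∑ r ∈ RS, B := Finset.sum_le_sum (fun r hr => (hno r hr).le)
        _ = (RS.card : ℝ) * B := by rw [Finset.sum_const, nsmul_eq_mul]
        _ ≤ R * B := by
            apply mul_le_mul_of_nonneg_right _ hBpos.le
            have : RS.card ≤ R := by
              rw [hRS]
              exact (Finset.card_filter_le _ _).trans (by simp)
            exact_mod_cast this
    have c4 : c' / 2 * y ≤ R * B * Real.log y :=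
      hgood.trans (hcard.trans (mul_le_mul_of_nonneg_right c3 hlogy0.le))
    have c5 : B * Real.log y * (2 * ((R:ℝ) + 1)) = c' * y := by
      rw [hB]; field_simp
    have c6 := mul_pos hBpos hlogy0
    nlinarith
  obtain ⟨r, hrS, hrB⟩ := hex
  rw [hRS] at hrS
  obtain ⟨hr1, hrp⟩ := Finset.mem_filter.1 hrS
  refine ⟨r, hrp, (Finset.mem_Icc.1 hr1).2, ?_⟩
  have h5 : (F r).card ≤ (sg n).factorization r := by
    rw [hF]; exact h4 n r a v n5 hrp
  have h6 : (sg n).factorization r = k.factorization r + n.factorization r := by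
    have : sg n = k * n := hs
    rw [this, Nat.factorization_mul hkpos hn0]; rfl
  have h7 : k.factorization r ≤ k := (Nat.factorization_lt r hkpos).le
  have h8 : B ≤ k + (n.factorization r : ℝ) := by
    have h81 : (F r).card ≤ k + n.factorization r := by
      calc (F r).card ≤ (sg n).factorization r := h5
        _ = k.factorization r + n.factorization r := h6
        _ ≤ k + n.factorization r := by omega
    calc B ≤ ((F r).card : ℝ) := hrB
      _ ≤ ((k + n.factorization r : ℕ) : ℝ) := by exact_mod_cast h81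
      _ = _ := by push_cast; rfl
  have h9 : (k:ℝ) ≤ B / 2 := by
    rw [Real.norm_of_nonneg (by positivity), Real.norm_of_nonneg hypos.le,
      div_mul_eq_mul_div, le_div_iff₀ (by positivity)] at y4
    rw [hkr, hB, div_div, div_le_div_iff₀ hGpos (by positivity)]
    linarith
  have hL1 : 1 < L := lt_of_lt_of_le (Real.one_lt_exp_iff.2 one_pos) n4
  have hLL : 0 < Real.log L := Real.log_pos hL1
  have hlt : Real.log t ≤ 2 * Real.log L := by
    have a1 : Real.log t = Real.log L - Real.log C := by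
      rw [ht]; exact Real.log_div hLpos.ne' hC.ne'
    have a2 : Real.log (1 / C) ≤ Real.log L := Real.log_le_log (by positivity) n3
    rw [Real.log_div one_ne_zero hC.ne', Real.log_one] at a2
    linarith
  have hmono : Real.log y * t ≤ Real.log t * y := by
    have h12 := Real.log_div_self_antitoneOn (show t ∈ {x | Real.exp 1 ≤ x} from het)
      (show y ∈ {x | Real.exp 1 ≤ x} from y3) hty
    exact (div_le_div_iff₀ hypos htpos).1 h12
  have h10 : B / 2 ≤ (n.factorization r : ℝ) := by linarith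
  refine le_trans ?_ h10
  have h11 : Real.log y * t ≤ 2 * Real.log L * y :=
    hmono.trans (mul_le_mul_of_nonneg_right hlt hypos.le)
  rw [hB, div_div, div_mul_eq_mul_div, div_div, div_le_div_iff₀ (by positivity) (by positivity)]
  calc c' * L * (2 * ((R:ℝ) + 1) * Real.log y * 2) =
        4 * c' * ((R:ℝ) + 1) * C * (Real.log y * t) := by
        linear_combination (c' * (2 * ((R:ℝ) + 1) * Real.log y * 2)) * htL
    _ ≤ 4 * c' * ((R:ℝ) + 1) * C * (2 * Real.log L * y) :=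
        mul_le_mul_of_nonneg_left h11 (by positivity)
    _ = c' * y * (8 * ((R:ℝ) + 1) * C * Real.log L) := by ring

end Pool.GRX
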