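import Pool.Agent.Work.MP_495a89_grx.Interface

/-!
# Block NRR
-/

set_option autoImplicit false

namespace Pool.GRX

open Finset Pool.GRO

theorem NRR_prod (n : ℕ) (hn : n ≠ 0) :
    ∑ d ∈ n.divisors, d = ∏ p ∈ n.primeFactors, ∑ i ∈ range (n.factorization p + 1), p ^ i := by
  have h1 := ArithmeticFunction.sigma_one_apply n
  have h2 := (ArithmeticFunction.isMultiplicative_sigma (k := 1)).multiplicative_factorization
    (ArithmeticFunction.sigma 1) hn
  rw [← h1, h2, Finsupp.prod, Nat.support_factorization]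
  refine Finset.prod_congr rfl fun p hp => ?_
  exact ArithmeticFunction.sigma_one_apply_prime_pow (Nat.prime_of_mem_primeFactors hp)

theorem p_NRR : S_NRR := by
  intro n r a v hn hr
  have hn0 : n ≠ 0 := by omega
  set S := n.primeFactors.filter (fun p => (p ≤ v ∧ n.factorization p = a) ∧
    r ∣ ∑ i ∈ range (a + 1), p ^ i) with hS
  have hsg : sg n = ∏ p ∈ n.primeFactors, ∑ i ∈ range (n.factorization p + 1), p ^ i := NRR_prod n hn0
  have hne : sg n ≠ 0 := by
    have h : 0 < ∑ d ∈ n.divisors, d :=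
      Finset.sum_pos (fun d hd => Nat.pos_of_mem_divisors hd) ⟨1, Nat.one_mem_divisors.2 hn0⟩
    exact h.ne'
  have h1 : r ^ S.card ∣ sg n := by
    rw [hsg, ← Finset.prod_const]
    refine dvd_trans (Finset.prod_dvd_prod_of_dvd (s := S) (fun _ => r)
      (fun p => ∑ i ∈ range (n.factorization p + 1), p ^ i) ?_)
      (Finset.prod_dvd_prod_of_subset _ _ _ (Finset.filter_subset _ _))
    intro p hp
    rw [hS, Finset.mem_filter] at hp
    show r ∣ ∑ i ∈ range (n.factorization p + 1), p ^ i
    rw [hp.2.1.2]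
    exact hp.2.2
  exact (hr.pow_dvd_iff_le_factorization hne).1 h1

end Pool.GRX
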