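import Pool.Agent.Work.MP_495a89_grx.Interface

set_option autoImplicit false

namespace Pool.GRX

open Finset Pool.GRO

theorem p_PIG : S_PIG := by
  intro C c hC hc
  set A0 : ℕ := ⌈2 * C / c⌉₊ + 1 with hA0
  have hA0r : 2 * C / c ≤ (A0 : ℝ) := by
    rw [hA0]
    push_cast
    linarith [Nat.le_ceil (2 * C / c)]
  have hA0n : 1 ≤ A0 := by rw [hA0]; omega
  have hA0pos : (0 : ℝ) < A0 := by exact_mod_cast hA0n
  have hCc : 2 * C ≤ A0 * c := by
    rw [div_le_iff₀ hc] at hA0r
    exact hA0r
  refine ⟨A0, c / (2 * A0), by positivity, ?_⟩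
  intro n v y hn hy hlog hT
  have hlogn : Real.log n = ∑ p ∈ n.primeFactors, (n.factorization p : ℝ) * Real.log p := by
    rw [Real.log_nat_eq_sum_factorization, Finsupp.sum, Nat.support_factorization]
  have hlp : ∀ p ∈ n.primeFactors, 0 ≤ Real.log (p : ℝ) := fun p hp =>
    Real.log_nonneg (by exact_mod_cast (Nat.prime_of_mem_primeFactors hp).one_lt.le)
  have hT' : T n 0 v = ∑ p ∈ n.primeFactors.filter (fun p => p ≤ v), Real.log p := by
    unfold T
    apply Finset.sum_congr _ (fun _ _ => rfl)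
    apply Finset.filter_congr
    intro p hp
    have := (Nat.prime_of_mem_primeFactors hp).pos
    constructor
    · exact fun h => h.2
    · exact fun h => ⟨this, h⟩
  set P := n.primeFactors.filter (fun p => p ≤ v) with hP
  have hsplit := Finset.sum_filter_add_sum_filter_not P (fun p => n.factorization p ≤ A0)
    (fun p : ℕ => Real.log (p : ℝ))
  -- the large exponents
  have h2 : (A0 : ℝ) * ∑ p ∈ P.filter (fun p => ¬ n.factorization p ≤ A0), Real.log (p : ℝ) ≤
      C * y := by
    refine le_trans ?_ hlog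
    rw [hlogn, Finset.mul_sum]
    refine le_trans (Finset.sum_le_sum (g := fun p : ℕ => (n.factorization p : ℝ) * Real.log p)
      ?_) ?_
    · intro p hp
      rw [Finset.mem_filter, hP, Finset.mem_filter] at hp
      apply mul_le_mul_of_nonneg_right _ (hlp p hp.1.1)
      have h3 : A0 ≤ n.factorization p := by omega
      exact_mod_cast h3
    · apply Finset.sum_le_sum_of_subset_of_nonneg
      · exact (Finset.filter_subset _ _).trans (Finset.filter_subset _ _)
      · intro p hp _
        exact mul_nonneg (Nat.cast_nonneg _) (hlp p hp)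
  have h2' : ∑ p ∈ P.filter (fun p => ¬ n.factorization p ≤ A0), Real.log (p : ℝ) ≤
      c / 2 * y := by
    have h4 : (A0 : ℝ) * ∑ p ∈ P.filter (fun p => ¬ n.factorization p ≤ A0),
        Real.log (p : ℝ) ≤ A0 * (c / 2 * y) := by
      refine h2.trans ?_
      have := mul_le_mul_of_nonneg_right hCc hy.le
      nlinarith [this]
    exact le_of_mul_le_mul_left h4 hA0pos
  by_contra hcon
  push Not at hcon
  have hmaps : ∀ p ∈ P.filter (fun p => n.factorization p ≤ A0),
      n.factorization p ∈ Icc 1 A0 := by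
    intro p hp
    rw [Finset.mem_filter, hP, Finset.mem_filter] at hp
    rw [Finset.mem_Icc]
    refine ⟨?_, hp.2⟩
    have hpp := Nat.prime_of_mem_primeFactors hp.1.1
    exact hpp.factorization_pos_of_dvd (by omega) (Nat.dvd_of_mem_primeFactors hp.1.1)
  have h1 := Finset.sum_fiberwise_of_maps_to hmaps (fun p : ℕ => Real.log (p : ℝ))
  have h5 : ∑ a ∈ Icc 1 A0, ∑ p ∈ (P.filter (fun p => n.factorization p ≤ A0)).filter
      (fun p => n.factorization p = a), Real.log (p : ℝ) <
      ∑ a ∈ Icc 1 A0, c / (2 * A0) * y := by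
    apply Finset.sum_lt_sum_of_nonempty
    · exact ⟨1, Finset.mem_Icc.mpr ⟨le_rfl, hA0n⟩⟩
    · intro a ha
      rw [Finset.mem_Icc] at ha
      refine lt_of_eq_of_lt ?_ (hcon a ha.1 ha.2)
      apply Finset.sum_congr _ (fun _ _ => rfl)
      ext p
      rw [Finset.mem_filter, Finset.mem_filter, hP, Finset.mem_filter, Finset.mem_filter]
      constructor
      · rintro ⟨⟨⟨q1, q2⟩, q3⟩, q4⟩
        exact ⟨q1, q2, q4⟩
      · rintro ⟨q1, q2, q4⟩
        exact ⟨⟨⟨q1, q2⟩, by rw [q4]; exact ha.2⟩, q4⟩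
  rw [h1] at h5
  have h6 : ∑ a ∈ Icc 1 A0, c / (2 * (A0 : ℝ)) * y = c / 2 * y := by
    rw [Finset.sum_const, Nat.card_Icc, nsmul_eq_mul]
    have : ((A0 + 1 - 1 : ℕ) : ℝ) = A0 := by simp
    rw [this]
    field_simp
  rw [h6] at h5
  rw [hT'] at hT
  linarith

end Pool.GRX
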