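import Pool.Agent.Work.MP_495a89_grx.Interface
import Pool.Agent.Work.MP_495a89_gro.B_AUP
import Pool.Agent.Work.MP_495a89_gro.B_M3Sx
import Pool.Agent.Work.MP_495a89_gro.B_SQP
import Pool.Agent.Work.MP_495a89_gro.B_TAI

set_option autoImplicit false

namespace Pool.GRX

open Finset Pool.GRO

theorem WINx_fin (L a b : ℝ) (hL : 0 < L) (hab : b < a) (haL : a < L) :
    (L - a) * Real.exp (b / L) < L := by
  have h1 : Real.exp (b / L) < Real.exp (a / L) :=
    Real.exp_lt_exp.mpr (div_lt_div_of_pos_right hab hL)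
  have h2 : -(a / L) + 1 ≤ Real.exp (-(a / L)) := Real.add_one_le_exp _
  have h3 : Real.exp (-(a / L)) * Real.exp (a / L) = 1 := by
    rw [← Real.exp_add]; simp
  have h4 : L - a ≤ L * Real.exp (-(a / L)) := by
    have h5 : L - a = L * (-(a / L) + 1) := by field_simp; ring
    rw [h5]; exact mul_le_mul_of_nonneg_left h2 hL.le
  calc (L - a) * Real.exp (b / L) < (L - a) * Real.exp (a / L) :=
        mul_lt_mul_of_pos_left h1 (by linarith)
    _ ≤ L * Real.exp (-(a / L)) * Real.exp (a / L) :=
        mul_le_mul_of_nonneg_right h4 (Real.exp_pos _).le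
    _ = L := by rw [mul_assoc, h3, mul_one]

theorem WINx_prod (n w : ℕ) (hw : 1 ≤ w) :
    ∏ p ∈ n.primeFactors, (1 - 1 / (p : ℝ))⁻¹ ≤
      VP w * Real.exp (∑ p ∈ n.primeFactors.filter (fun p => ¬ p ≤ w), 1 / (p : ℝ) + 1 / w) := by
  rw [← Finset.prod_filter_mul_prod_filter_not n.primeFactors (fun p => p ≤ w)]
  have hf : ∀ p : ℕ, p.Prime → 1 ≤ (1 - 1 / (p : ℝ))⁻¹ := by
    intro p hp
    have hp2 : (2 : ℝ) ≤ p := by exact_mod_cast hp.two_le
    have h1 : (1 : ℝ) / p ≤ 1 / 2 := one_div_le_one_div_of_le (by norm_num) hp2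
    have h2 : 0 < (1 : ℝ) / p := by positivity
    exact (one_le_inv₀ (by linarith)).mpr (by linarith)
  have h1 : ∏ p ∈ n.primeFactors.filter (fun p => p ≤ w), (1 - 1 / (p : ℝ))⁻¹ ≤ VP w := by
    unfold VP Pr
    have hsub : n.primeFactors.filter (fun p => p ≤ w) ⊆ (Ioc 0 w).filter Nat.Prime := by
      intro p hp
      simp only [Finset.mem_filter, Nat.mem_primeFactors, Finset.mem_Ioc] at hp ⊢
      exact ⟨⟨hp.1.1.pos, hp.2⟩, hp.1.1⟩
    rw [← Finset.prod_sdiff hsub]
    have hone : 1 ≤ ∏ p ∈ ((Ioc 0 w).filter Nat.Prime) \ (n.primeFactors.filter (fun p => p ≤ w)),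
        (1 - 1 / (p : ℝ))⁻¹ := by
      have h6 := Finset.prod_le_prod
        (s := ((Ioc 0 w).filter Nat.Prime) \ (n.primeFactors.filter (fun p => p ≤ w)))
        (f := fun _ => (1 : ℝ)) (g := fun p : ℕ => (1 - 1 / (p : ℝ))⁻¹)
        (fun _ _ => zero_le_one)
        (fun p hp => hf p (Finset.mem_filter.mp (Finset.mem_sdiff.mp hp).1).2)
      simpa only [Finset.prod_const_one] using h6
    refine le_mul_of_one_le_left (Finset.prod_nonneg ?_) hone
    intro p hp
    have := hf p (Nat.prime_of_mem_primeFactors (Finset.mem_filter.mp hp).1)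
    linarith
  have h2 := (p_SQP (n.primeFactors.filter (fun p => ¬ p ≤ w)) w hw (fun p hp =>
    ⟨Nat.prime_of_mem_primeFactors (Finset.mem_filter.mp hp).1,
      not_le.mp (Finset.mem_filter.mp hp).2⟩)).1
  refine mul_le_mul h1 h2 (Finset.prod_nonneg ?_) ?_
  · intro p hp
    have := hf p (Nat.prime_of_mem_primeFactors (Finset.mem_filter.mp hp).1)
    linarith
  · unfold VP Pr
    refine Finset.prod_nonneg ?_
    intro p hp
    have := hf p (Finset.mem_filter.mp hp).2
    linarith

theorem WINx_sum (n w Y : ℕ) (hw : 2 ≤ w) :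
    ∑ p ∈ n.primeFactors.filter (fun p => ¬ p ≤ w), 1 / (p : ℝ) ≤
      T n 0 Y / (w * Real.log w) + ∑ p ∈ n.primeFactors.filter (fun p => Y < p), 1 / (p : ℝ) := by
  have hlw : 0 < Real.log w := Real.log_pos (by exact_mod_cast hw)
  have hw0 : (0 : ℝ) < w := by
    have : (2 : ℝ) ≤ w := by exact_mod_cast hw
    linarith
  rw [← Finset.sum_filter_add_sum_filter_not (n.primeFactors.filter (fun p => ¬ p ≤ w))
    (fun p => p ≤ Y)]
  apply add_le_add
  · unfold T
    rw [Finset.sum_div]
    calc ∑ p ∈ (n.primeFactors.filter (fun p => ¬ p ≤ w)).filter (fun p => p ≤ Y), 1 / (p : ℝ)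
        ≤ ∑ p ∈ (n.primeFactors.filter (fun p => ¬ p ≤ w)).filter (fun p => p ≤ Y),
            Real.log p / (w * Real.log w) := by
          apply Finset.sum_le_sum
          intro p hp
          simp only [Finset.mem_filter, Nat.mem_primeFactors] at hp
          have hwp : (w : ℝ) ≤ p := by exact_mod_cast (not_le.mp hp.1.2).le
          have hp0 : (0 : ℝ) < p := by linarith
          have hlp : Real.log w ≤ Real.log p := Real.log_le_log hw0 hwp
          rw [div_le_div_iff₀ hp0 (by positivity), one_mul, mul_comm (Real.log (p : ℝ))]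
          exact mul_le_mul hwp hlp hlw.le hp0.le
      _ ≤ _ := by
          apply Finset.sum_le_sum_of_subset_of_nonneg
          · intro p hp
            simp only [Finset.mem_filter, Nat.mem_primeFactors] at hp ⊢
            exact ⟨hp.1.1, hp.1.1.1.pos, hp.2⟩
          · intro p hp _
            have := Real.log_natCast_nonneg p
            positivity
  · apply Finset.sum_le_sum_of_subset_of_nonneg
    · intro p hp
      simp only [Finset.mem_filter] at hp ⊢
      exact ⟨hp.1.1, not_le.mp hp.2⟩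
    · intro p _ _
      positivity

theorem p_WINx : S_WIN := by
  intro C hC
  obtain ⟨w0, hw0⟩ := p_M3Sx (1 / 4) (by norm_num)
  set η : ℝ := Real.exp (-C - 3) with hη
  have hη0 : 0 < η := Real.exp_pos _
  set L0 : ℝ := 8 / η + w0 + 2 * (C + 4) + 8 with hL0
  refine ⟨η / 8, by positivity, ⌈Real.exp Real.eulerMascheroniConstant * L0⌉₊, ?_⟩
  intro n k hn hs hk hlog
  by_contra hcon
  push Not at hcon
  set L : ℝ := Real.exp (-Real.eulerMascheroniConstant) * k with hL
  have hy : yy k = Real.exp L := rfl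
  have hkL : (k : ℝ) = Real.exp Real.eulerMascheroniConstant * L := by
    rw [hL, ← mul_assoc, ← Real.exp_add]; simp
  have hLL0 : L0 ≤ L := by
    have h1 : Real.exp Real.eulerMascheroniConstant * L0 ≤ k :=
      (Nat.le_ceil _).trans (by exact_mod_cast hk)
    rw [hkL] at h1
    exact le_of_mul_le_mul_left h1 (Real.exp_pos _)
  have h8η : 0 < 8 / η := by positivity
  have hw0n : (0 : ℝ) ≤ w0 := Nat.cast_nonneg _
  have hL8 : 8 / η ≤ L := by linarith
  have hLw0 : (w0 : ℝ) ≤ L := by linarith
  have hLC : 2 * (C + 4) ≤ L := by linarith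
  have hL1 : 8 ≤ L := by linarith
  have hLpos : 0 < L := by linarith
  rw [hy] at hlog hcon
  set y : ℝ := Real.exp L with hyL
  have hypos : 0 < y := Real.exp_pos L
  have hy2 : L ^ 2 / 2 ≤ y := by
    have := Real.quadratic_le_exp_of_nonneg (x := L) hLpos.le
    nlinarith
  have hLy : L ≤ y := by
    have := Real.add_one_le_exp L
    linarith
  have hηy : 4 * L ≤ η * y := by
    have h1 : 8 ≤ L * η := by rwa [div_le_iff₀ hη0] at hL8
    have h2 := mul_le_mul_of_nonneg_left hy2 hη0.le
    have h3 := mul_le_mul_of_nonneg_right h1 hLpos.le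
    nlinarith
  set w : ℕ := ⌊η * y⌋₊ with hwdef
  have hwle : (w : ℝ) ≤ η * y := Nat.floor_le (by positivity)
  have hwge : η * y - 1 ≤ w := (Nat.sub_one_lt_floor _).le
  have hwL : 2 * L ≤ w := by linarith
  have hwhalf : η * y / 2 ≤ w := by linarith
  have hwpos : (0 : ℝ) < w := by linarith
  have hw2 : 2 ≤ w := by
    have : (2 : ℝ) ≤ w := by linarith
    exact_mod_cast this
  have hww0 : w0 ≤ w := by
    have : (w0 : ℝ) ≤ w := by linarith
    exact_mod_cast this
  have hlogη : Real.log (η * y) = L - C - 3 := by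
    rw [Real.log_mul hη0.ne' hypos.ne', hη, Real.log_exp, hyL, Real.log_exp]; ring
  have hlogw_le : Real.log w ≤ L - C - 3 := by
    rw [← hlogη]
    exact Real.log_le_log hwpos hwle
  have hlog2 : Real.log 2 ≤ 1 := by
    have := Real.log_two_lt_d9
    linarith
  have hlogw_ge : L / 2 ≤ Real.log w := by
    have h1 : Real.log (η * y / 2) ≤ Real.log w := Real.log_le_log (by positivity) hwhalf
    rw [Real.log_div (by positivity) (by norm_num), hlogη] at h1
    linarith
  set Y : ℕ := ⌊y⌋₊ with hY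
  have hYge : y - 1 ≤ Y := (Nat.sub_one_lt_floor _).le
  have hYhalf : y / 2 ≤ Y := by linarith
  have hYpos : (0 : ℝ) < Y := by linarith
  have hY2 : 2 ≤ Y := by
    have : (2 : ℝ) ≤ Y := by linarith
    exact_mod_cast this
  have hlogY : L - 1 ≤ Real.log Y := by
    have h1 : Real.log (y / 2) ≤ Real.log Y := Real.log_le_log (by positivity) hYhalf
    rw [Real.log_div (by positivity) (by norm_num), hyL, Real.log_exp] at h1
    linarith
  have hlogYpos : 0 < Real.log Y := by linarith
  have hlogwpos : 0 < Real.log w := by linarith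
  have htail := p_TAI n Y hn hY2
  have htail2 : Real.log n / (Y * Real.log Y) ≤ (C + 1) / L := by
    rw [div_le_div_iff₀ (by positivity) hLpos]
    have h1 : Real.log n * L ≤ C * y * L := mul_le_mul_of_nonneg_right hlog hLpos.le
    have h2 : (y - 1) * (L - 1) ≤ Y * Real.log Y :=
      mul_le_mul hYge hlogY (by linarith) hYpos.le
    have h3 : (C + 1) * ((y - 1) * (L - 1)) ≤ (C + 1) * (Y * Real.log Y) :=
      mul_le_mul_of_nonneg_left h2 (by linarith)
    have h4 : C * y * L ≤ (C + 1) * ((y - 1) * (L - 1)) := by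
      have h5 : (C + 1) * (y + L - 1) ≤ (C + 1) * (2 * y) :=
        mul_le_mul_of_nonneg_left (by linarith) (by linarith)
      have h6 : (2 * (C + 1)) * y ≤ L * y := mul_le_mul_of_nonneg_right (by linarith) hypos.le
      nlinarith
    linarith
  have hmid : T n 0 Y / (w * Real.log w) ≤ 1 / (2 * L) := by
    rw [div_le_div_iff₀ (by positivity) (by positivity)]
    have h1 : (η * y / 2) * (L / 2) ≤ w * Real.log w :=
      mul_le_mul hwhalf hlogw_ge (by linarith) hwpos.le
    have h2 : T n 0 Y * (2 * L) ≤ (η / 8 * y) * (2 * L) :=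
      mul_le_mul_of_nonneg_right hcon.le (by linarith)
    nlinarith
  have hinvw : 1 / (w : ℝ) ≤ 1 / (2 * L) := one_div_le_one_div_of_le (by positivity) hwL
  have hsum := WINx_sum n w Y hw2
  have hE : ∑ p ∈ n.primeFactors.filter (fun p => ¬ p ≤ w), 1 / (p : ℝ) + 1 / w ≤
      (C + 2) / L := by
    have h7 : (C + 2) / L = 1 / (2 * L) + (C + 1) / L + 1 / (2 * L) := by
      field_simp; ring
    linarith
  have hprod := WINx_prod n w (by omega)
  have hVP := hw0 w hww0
  have hAUP := p_AUP n hn
  have hkk : (sg n : ℝ) / n = k := by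
    have hn0 : (n : ℝ) ≠ 0 := by
      have : 0 < n := hn
      positivity
    rw [hs]; push_cast; field_simp
  have hVP2 : VP w ≤ Real.exp Real.eulerMascheroniConstant * (L - (C + 11 / 4)) := by
    refine hVP.trans (mul_le_mul_of_nonneg_left ?_ (Real.exp_pos _).le)
    linarith
  have hfin := WINx_fin L (C + 11 / 4) (C + 2) hLpos (by linarith) (by linarith)
  have hmain : (k : ℝ) ≤ Real.exp Real.eulerMascheroniConstant *
      ((L - (C + 11 / 4)) * Real.exp ((C + 2) / L)) := by
    rw [← hkk, ← mul_assoc]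
    refine hAUP.trans (hprod.trans ?_)
    refine mul_le_mul hVP2 (Real.exp_le_exp.mpr hE) (Real.exp_pos _).le ?_
    exact mul_nonneg (Real.exp_pos _).le (by linarith)
  have hlt : Real.exp Real.eulerMascheroniConstant *
      ((L - (C + 11 / 4)) * Real.exp ((C + 2) / L)) < k := by
    rw [hkL]
    exact mul_lt_mul_of_pos_left hfin (Real.exp_pos _)
  linarith

end Pool.GRX
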