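import Pool.Agent.Work.MP_495a89_grx.Interface
import Pool.Agent.Work.MP_495a89_gro.B_AUP
import Pool.Agent.Work.MP_495a89_gro.B_M3Sx
import Pool.Agent.Work.MP_495a89_gro.B_SQP
import Pool.Agent.Work.MP_495a89_gro.B_TAI
import Pool.Agent.Work.MP_495a89_gro.B_CMP

set_option autoImplicit false

namespace Pool.GRX

open Finset Pool.GRO

theorem WINy_prod (hSQP : S_SQP) (hTAI : S_TAI) (n w Y : ℕ) (hn : 1 ≤ n) (hw : 2 ≤ w)
    (hwY : w ≤ Y) :
    ∏ p ∈ n.primeFactors, (1 - 1 / (p : ℝ))⁻¹ ≤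
      VP w * Real.exp (T n 0 Y / (w * Real.log w) + Real.log n / (Y * Real.log Y) + 1 / w) := by
  classical
  have hA : ∀ p ∈ n.primeFactors, p.Prime := fun p hp => Nat.prime_of_mem_primeFactors hp
  have h1 : ∏ p ∈ n.primeFactors, (1 - 1 / (p : ℝ))⁻¹ =
      (∏ p ∈ n.primeFactors.filter (fun p => p ≤ w), (1 - 1 / (p : ℝ))⁻¹) *
      ∏ p ∈ n.primeFactors.filter (fun p => ¬ p ≤ w), (1 - 1 / (p : ℝ))⁻¹ :=
    (Finset.prod_filter_mul_prod_filter_not _ _ _).symm
  have h2 : ∏ p ∈ n.primeFactors.filter (fun p => p ≤ w), (1 - 1 / (p : ℝ))⁻¹ ≤ VP w := by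
    unfold VP
    apply CMP_sub
    · intro p hp
      rw [mem_filter] at hp
      simp only [Pr, mem_filter, mem_Ioc]
      exact ⟨⟨(hA p hp.1).pos, hp.2⟩, hA p hp.1⟩
    · intro p hp
      simp only [Pr, mem_filter] at hp
      exact CMP_one_le hp.2
  obtain ⟨s1, -⟩ := hSQP (n.primeFactors.filter (fun p => ¬ p ≤ w)) w (by omega) (by
    intro p hp
    rw [mem_filter] at hp
    exact ⟨hA p hp.1, by omega⟩)
  have h3 : ∑ p ∈ n.primeFactors.filter (fun p => ¬ p ≤ w), 1 / (p : ℝ) =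
      ∑ p ∈ n.primeFactors.filter (fun p => w < p ∧ p ≤ Y), 1 / (p : ℝ) +
      ∑ p ∈ n.primeFactors.filter (fun p => Y < p), 1 / (p : ℝ) := by
    rw [← Finset.sum_union]
    · apply Finset.sum_congr _ (fun _ _ => rfl)
      ext p
      simp only [mem_filter, mem_union]
      constructor
      · rintro ⟨a, b⟩
        by_cases h : p ≤ Y
        · exact Or.inl ⟨a, by omega, h⟩
        · exact Or.inr ⟨a, by omega⟩
      · rintro (⟨a, b⟩ | ⟨a, b⟩)
        · exact ⟨a, by omega⟩
        · exact ⟨a, by omega⟩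
    · rw [Finset.disjoint_left]
      intro p h1 h2
      simp only [mem_filter] at h1 h2
      omega
  have hw2 : (2:ℝ) ≤ w := by exact_mod_cast hw
  have hlw : 0 < Real.log w := Real.log_pos (by linarith)
  have h4 : ∑ p ∈ n.primeFactors.filter (fun p => w < p ∧ p ≤ Y), 1 / (p : ℝ) ≤
      T n 0 Y / (w * Real.log w) := by
    calc ∑ p ∈ n.primeFactors.filter (fun p => w < p ∧ p ≤ Y), 1 / (p : ℝ)
        ≤ ∑ p ∈ n.primeFactors.filter (fun p => w < p ∧ p ≤ Y),
            Real.log p / (w * Real.log w) := by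
          apply Finset.sum_le_sum
          intro p hp
          simp only [mem_filter] at hp
          have hpw : (w:ℝ) ≤ p := by exact_mod_cast hp.2.1.le
          have hp0 : (0:ℝ) < p := by linarith
          have hlp : Real.log w ≤ Real.log p := Real.log_le_log (by linarith) hpw
          rw [div_le_div_iff₀ hp0 (by positivity)]
          nlinarith
      _ = (∑ p ∈ n.primeFactors.filter (fun p => w < p ∧ p ≤ Y),
            Real.log p) / (w * Real.log w) := by rw [Finset.sum_div]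
      _ ≤ T n 0 Y / (w * Real.log w) := by
          apply div_le_div_of_nonneg_right _ (by positivity)
          unfold T
          apply Finset.sum_le_sum_of_subset_of_nonneg
          · intro p hp
            simp only [mem_filter] at hp ⊢
            exact ⟨hp.1, by omega, hp.2.2⟩
          · intro p hp _
            exact Real.log_natCast_nonneg p
  have h5 := hTAI n Y hn (by omega)
  rw [h1]
  have h6 : ∏ p ∈ n.primeFactors.filter (fun p => ¬ p ≤ w), (1 - 1 / (p : ℝ))⁻¹ ≤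
      Real.exp (T n 0 Y / (w * Real.log w) + Real.log n / (Y * Real.log Y) + 1 / w) := by
    refine s1.trans (Real.exp_le_exp.2 ?_)
    rw [h3]
    linarith
  have h7 : 0 ≤ ∏ p ∈ n.primeFactors.filter (fun p => ¬ p ≤ w), (1 - 1 / (p : ℝ))⁻¹ := by
    apply Finset.prod_nonneg
    intro p hp
    rw [mem_filter] at hp
    linarith [CMP_one_le (hA p hp.1)]
  have h8 : 0 ≤ VP w := by
    unfold VP
    apply Finset.prod_nonneg
    intro p hp
    simp only [Pr, mem_filter] at hp
    linarith [CMP_one_le hp.2]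
  exact mul_le_mul h2 h6 h7 h8

theorem WINy_main (hAUP : S_AUP) (hM : S_M3S) (hSQP : S_SQP) (hTAI : S_TAI) : S_WIN := by
  classical
  intro C hC
  obtain ⟨w0, hw0⟩ := hM (1/4) (by norm_num)
  have hGpos : 0 < Real.exp (-Real.eulerMascheroniConstant) := Real.exp_pos _
  obtain ⟨η, hη⟩ : ∃ η : ℝ, η = Real.exp (-C-3) := ⟨_, rfl⟩
  have hηpos : 0 < η := by rw [hη]; exact Real.exp_pos _
  have hη1 : η ≤ 1 := by rw [hη]; exact Real.exp_le_one_iff.2 (by linarith)
  obtain ⟨S0, hS0⟩ : ∃ S0 : ℝ, S0 = (8*C+2) + |2*Real.log (2/η)| + 16/η + ((w0:ℝ)+3) + (C+4) :=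
    ⟨_, rfl⟩
  refine ⟨η/8, by positivity, ⌈S0 / Real.exp (-Real.eulerMascheroniConstant)⌉₊, ?_⟩
  intro n k hn hsg hk hlog
  have hyy : yy k = Real.exp (Real.exp (-Real.eulerMascheroniConstant) * k) := rfl
  obtain ⟨s, hs⟩ : ∃ s : ℝ, s = Real.exp (-Real.eulerMascheroniConstant) * k := ⟨_, rfl⟩
  rw [← hs] at hyy
  rw [hyy] at hlog ⊢
  have hS0s : S0 ≤ s := by
    have h := (Nat.le_ceil (S0 / Real.exp (-Real.eulerMascheroniConstant))).trans
      (show ((⌈S0 / Real.exp (-Real.eulerMascheroniConstant)⌉₊ : ℕ) : ℝ) ≤ k by exact_mod_cast hk)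
    rw [div_le_iff₀ hGpos] at h
    rw [hs]; linarith [mul_comm (k:ℝ) (Real.exp (-Real.eulerMascheroniConstant))]
  have habs := abs_nonneg (2*Real.log (2/η))
  have habs2 := le_abs_self (2*Real.log (2/η))
  have h16 : 0 < 16/η := by positivity
  have hw0n : (0:ℝ) ≤ w0 := Nat.cast_nonneg _
  have s1 : 8*C+2 ≤ s := by linarith
  have s2 : 2*Real.log (2/η) ≤ s := by linarith
  have s3 : 16/η ≤ s := by linarith
  have s4 : (w0:ℝ)+3 ≤ s := by linarith
  have s5 : C+4 ≤ s := by linarith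
  have hk' : (k:ℝ) = Real.exp Real.eulerMascheroniConstant * s := by
    rw [hs, ← mul_assoc, ← Real.exp_add]; simp
  obtain ⟨y, hy⟩ : ∃ y : ℝ, y = Real.exp s := ⟨_, rfl⟩
  rw [← hy] at hlog ⊢
  have hypos : 0 < y := by rw [hy]; exact Real.exp_pos _
  have hys : Real.log y = s := by rw [hy, Real.log_exp]
  have hs0 : 0 < s := by linarith
  have hquad : 1 + s + s^2/2 ≤ y := by rw [hy]; exact Real.quadratic_le_exp_of_nonneg hs0.le
  have hsy : s ≤ y := by nlinarith [sq_nonneg s]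
  have hηs : 16 ≤ s * η := (div_le_iff₀ hηpos).1 s3
  have hy8 : 8 * s ≤ η * y := by
    have : η * (s^2/2) ≤ η * y := by
      apply mul_le_mul_of_nonneg_left _ hηpos.le
      linarith
    nlinarith
  obtain ⟨w, hw⟩ : ∃ w : ℕ, w = ⌊η*y⌋₊ := ⟨_, rfl⟩
  obtain ⟨Y, hY⟩ : ∃ Y : ℕ, Y = ⌊y⌋₊ := ⟨_, rfl⟩
  rw [← hY]
  have hwle : (w:ℝ) ≤ η*y := by rw [hw]; exact Nat.floor_le (by positivity)
  have hwgt : η*y - 1 < w := by rw [hw]; exact Nat.sub_one_lt_floor _
  have hYle : (Y:ℝ) ≤ y := by rw [hY]; exact Nat.floor_le hypos.le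
  have hYgt : y - 1 < Y := by rw [hY]; exact Nat.sub_one_lt_floor _
  have hwhalf : η*y/2 ≤ w := by linarith
  have hw4 : 4*s ≤ w := by linarith
  have hww0 : w0 ≤ w := by
    have : (w0:ℝ) ≤ w := by linarith
    exact_mod_cast this
  have hw2 : 2 ≤ w := by
    have : (2:ℝ) ≤ w := by linarith
    exact_mod_cast this
  have hwY : w ≤ Y := by
    rw [hw, hY]
    apply Nat.floor_le_floor
    nlinarith
  have hwpos : (0:ℝ) < w := by linarith
  have hlogup : Real.log w ≤ s - C - 3 := by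
    have h := Real.log_le_log hwpos hwle
    rw [Real.log_mul hηpos.ne' hypos.ne', hys, hη, Real.log_exp] at h
    linarith
  have hloglo : s/2 ≤ Real.log w := by
    have h := Real.log_le_log (by positivity) hwhalf
    have h2 : η*y/2 = y/(2/η) := by field_simp
    rw [h2, Real.log_div hypos.ne' (by positivity), hys] at h
    linarith
  have hYlo : s - 1 ≤ Real.log Y := by
    have h1 : y/2 ≤ Y := by linarith
    have h := Real.log_le_log (by positivity) h1
    rw [Real.log_div hypos.ne' (by norm_num), hys] at h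
    have := Real.log_two_lt_d9
    linarith
  have hYpos : (0:ℝ) < Y := by linarith
  have hlYpos : 0 < Real.log Y := by linarith
  have hlwpos : 0 < Real.log w := by linarith
  by_contra hlt
  push Not at hlt
  have hk1 : (k:ℝ) ≤ ∏ p ∈ n.primeFactors, (1-1/(p:ℝ))⁻¹ := by
    have h := hAUP n hn
    rw [hsg] at h
    push_cast at h
    rwa [mul_div_assoc, div_self (by positivity), mul_one] at h
  have hk2 := hk1.trans (WINy_prod hSQP hTAI n w Y hn hw2 hwY)
  have e1 : T n 0 Y / (w * Real.log w) ≤ 1 / (2*s) := by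
    rw [div_le_div_iff₀ (by positivity) (by positivity)]
    have h1 : η*y/2*(s/2) ≤ w * Real.log w :=
      mul_le_mul hwhalf hloglo (by positivity) hwpos.le
    have h2 : T n 0 Y * (2*s) ≤ η/8*y*(2*s) := mul_le_mul_of_nonneg_right hlt.le (by positivity)
    have h3 : η/8*y*(2*s) = η*y/2*(s/2) := by ring
    linarith
  have e2 : Real.log n / (Y * Real.log Y) ≤ (C+1/4)/s := by
    rw [div_le_div_iff₀ (by positivity) hs0]
    have h1 : (y-1)*(s-1) ≤ Y * Real.log Y :=
      mul_le_mul hYgt.le hYlo (by linarith) hYpos.le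
    have h2 : Real.log n * s ≤ C*y*s := mul_le_mul_of_nonneg_right hlog hs0.le
    have h3 : (C+1/4)*((y-1)*(s-1)) ≤ (C+1/4)*(Y * Real.log Y) :=
      mul_le_mul_of_nonneg_left h1 (by linarith)
    have h4 : (8*C+2)*y ≤ s*y := mul_le_mul_of_nonneg_right s1 hypos.le
    have h5 : (C+1/4)*s ≤ (C+1/4)*y := mul_le_mul_of_nonneg_left hsy (by linarith)
    linarith
  have e3 : 1/(w:ℝ) ≤ 1/(4*s) := one_div_le_one_div_of_le (by positivity) hw4
  have e4 : T n 0 Y / (w * Real.log w) + Real.log n / (Y * Real.log Y) + 1 / w ≤ (C+1)/s := by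
    have h1 : (C+1)/s = 1/(2*s) + (C+1/4)/s + 1/(4*s) := by field_simp; ring
    rw [h1]; linarith
  have e5 : Real.exp ((C+1)/s) ≤ s/(s-(C+1)) := by
    have h1 := Real.add_one_le_exp (-((C+1)/s))
    have h2 : -((C+1)/s) + 1 = (s-(C+1))/s := by field_simp; ring
    rw [h2, Real.exp_neg] at h1
    have h3 : 0 < s - (C+1) := by linarith
    have h4 : 0 < Real.exp ((C+1)/s) := Real.exp_pos _
    rw [le_div_iff₀ h3]
    have h5 : (s-(C+1))/s * Real.exp ((C+1)/s) ≤ 1 := by
      calc (s-(C+1))/s * Real.exp ((C+1)/s) ≤ (Real.exp ((C+1)/s))⁻¹ * Real.exp ((C+1)/s) :=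
            mul_le_mul_of_nonneg_right h1 h4.le
        _ = 1 := inv_mul_cancel₀ h4.ne'
    rw [div_mul_eq_mul_div, div_le_one hs0] at h5
    linarith
  have hVP := hw0 w hww0
  have hE : 0 < Real.exp Real.eulerMascheroniConstant := Real.exp_pos _
  have hVP2 : VP w ≤ Real.exp Real.eulerMascheroniConstant * (s - C - 11/4) := by
    refine hVP.trans (mul_le_mul_of_nonneg_left (by linarith) hE.le)
  have h3 : 0 < s - (C+1) := by linarith
  have hk3 : (k:ℝ) ≤ Real.exp Real.eulerMascheroniConstant * (s - C - 11/4) * (s/(s-(C+1))) := by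
    refine hk2.trans (mul_le_mul hVP2 ((Real.exp_le_exp.2 e4).trans e5) (Real.exp_pos _).le ?_)
    exact mul_nonneg hE.le (by linarith)
  rw [hk', mul_assoc] at hk3
  have hk4 := le_of_mul_le_mul_left hk3 hE
  rw [← mul_div_assoc, le_div_iff₀ h3] at hk4
  linarith

theorem p_WINy : S_WIN := WINy_main p_AUP p_M3Sx p_SQP p_TAI

end Pool.GRX
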