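import Pool.Agent.Work.MP_495a89_gro.Interface

/-!
# Multiperfect numbers with nearly maximal multiplier have a huge exponent (MP_495a89_nt)

THEOREM.  For every `C` there are `R`, `c > 0`, `N` such that every `k`-fold perfect `n ≥ N` with
`log n ≤ C exp (e^(-γ) k)` has a prime `r ≤ R` with `v_r(n) ≥ c log n / log log n`.

Every block is a `Prop` `S_X`; the file `B_X.lean` proves `theorem p_X (h1 : S_Y) ... : S_X` in the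
namespace `Pool.GRX`.
-/

set_option autoImplicit false

namespace Pool.GRX

open Finset Pool.GRO

/-- `y = exp (e^(-γ) k)` -/
noncomputable def yy (k : ℕ) : ℝ := Real.exp (Real.exp (-Real.eulerMascheroniConstant) * k)

/-- Block WIN. Put `y = yy k`, `η = exp (-C-3)`, `w = ⌊η y⌋₊`, `c = η / 8`. If `T n 0 ⌊y⌋₊ < c y`:
`k = sg n / n ≤ ∏_{p ∣ n} (1-1/p)⁻¹` (AUP), the part `p ≤ w` is at most `VP w ≤ e^γ (log w + 1/4)`
(M3S), the part `p > w` at most `exp (∑ 1/p + 1/w)` (SQP), where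
`∑_{w < p ≤ y} 1/p ≤ T/(w log w)` (as `p log p ≥ w log w`; it is `≤ 1/(2 log y)`) and
`∑_{p > y} 1/p ≤ log n/(⌊y⌋ log ⌊y⌋) ≤ (C + 1/4)/log y` (TAI). So
`k ≤ e^γ (log y - C - 3 + 1/4) exp ((C + 1)/log y) < e^γ log y = k`, contradiction. -/
def S_WIN : Prop := ∀ C : ℝ, 0 < C → ∃ c : ℝ, 0 < c ∧ ∃ K0 : ℕ, ∀ n k : ℕ, 1 ≤ n →
  sg n = k * n → K0 ≤ k → Real.log n ≤ C * yy k → c * yy k ≤ T n 0 ⌊yy k⌋₊

/-- Block PIG. `∑_{p ∣ n} v_p(n) log p = log n ≤ C y`, so the `p` with `v_p(n) > A0` have log mass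
`≤ C y / A0 ≤ c y / 2` (`A0 = ⌈2C/c⌉₊ + 1`); pigeonhole over `1 ≤ a ≤ A0`, `c' = c/(2 A0)`. -/
def S_PIG : Prop := ∀ C c : ℝ, 0 < C → 0 < c → ∃ (A0 : ℕ) (c' : ℝ), 0 < c' ∧
  ∀ (n v : ℕ) (y : ℝ), 1 ≤ n → 0 < y → Real.log n ≤ C * y → c * y ≤ T n 0 v →
    ∃ a : ℕ, 1 ≤ a ∧ a ≤ A0 ∧
      c' * y ≤ ∑ p ∈ n.primeFactors.filter (fun p => p ≤ v ∧ n.factorization p = a), Real.log p

/-- Block DIV. Dirichlet in divergence form: Mathlib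
`ArithmeticFunction.vonMangoldt.not_summable_residueClass_prime_div` (or the `1/p` form). -/
def S_DIV : Prop := ∀ l : ℕ, l.Prime → ∀ M : ℝ, ∃ R : ℕ,
  M ≤ ∑ r ∈ (Icc 1 R).filter (fun r => r.Prime ∧ r % l = 1), 1 / (r : ℝ)

/-- Block CLS. Chinese remainder theorem; modulo a prime `r ≡ 1 (mod l)` the equation
`1 + u + ... + u^(l-1) = 0` has exactly `l - 1` roots (the `l`-th roots of unity except `1`;
`1` is no root since `r ∤ l`), all units, so `r - l` units remain. -/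
def S_CLS : Prop := ∀ l : ℕ, l.Prime → ∀ S : Finset ℕ, (∀ r ∈ S, r.Prime ∧ r % l = 1) →
  ((range (∏ r ∈ S, r)).filter (fun u => u.Coprime (∏ r ∈ S, r) ∧
    ∀ r ∈ S, ¬ r ∣ ∑ i ∈ range l, u ^ i)).card ≤ ∏ r ∈ S, (r - l)

/-- Block APS. From `Pool.Agent.Work.PNT70.pnt_ap` (file `Pool/Agent/Work/PNT70/PNT.lean`). -/
def S_APS : Prop := ∀ Q : ℕ, 1 ≤ Q → ∀ u : ℕ, u.Coprime Q → ∀ ε : ℝ, 0 < ε → ∃ V0 : ℕ,
  ∀ v : ℕ, V0 ≤ v →
    ∑ p ∈ (Icc 1 v).filter (fun p => p.Prime ∧ p % Q = u % Q), Real.log p ≤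
      (1 / (Q.totient : ℝ) + ε) * v

/-- Block AVL. `S` = the primes `r ≤ R`, `r ≡ 1 (mod l)`, `Q = ∏ S`, `φ(Q) = ∏ (r - 1)`; the primes
`p ∤ Q` of the sum lie in at most `∏ (r - l)` classes modulo `Q` (CLS), each with mass
`≤ (1/φ(Q) + ε') v` (APS), and `∏ (r-l)/(r-1) ≤ exp (- ∑ (l-1)/(r-1)) ≤ exp (- ∑ 1/r) ≤ ε/3`
for large `R` (DIV); the primes `p ∣ Q` have mass `≤ log Q ≤ (ε/3) v`. -/
def S_AVL : Prop := ∀ l : ℕ, l.Prime → ∀ ε : ℝ, 0 < ε → ∃ R V0 : ℕ, ∀ v : ℕ, V0 ≤ v →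
  ∑ p ∈ (Icc 1 v).filter (fun p => p.Prime ∧
    ∀ r ∈ Icc 1 R, r.Prime → r % l = 1 → ¬ r ∣ ∑ i ∈ range l, p ^ i), Real.log p ≤ ε * v

/-- Block AVO. `l = (a+1).minFac`: `∑_{i<l} p^i ∣ ∑_{i<a+1} p^i` (`geom_sum`), so the set is
smaller than the one of AVL; `R` and `V0` = maximum over `1 ≤ a ≤ A0` (`Finset.sup` or induction
on `A0`; a larger `R` makes the set smaller). -/
def S_AVO : Prop := ∀ (A0 : ℕ) (ε : ℝ), 0 < ε → ∃ R V0 : ℕ, ∀ a v : ℕ, 1 ≤ a → a ≤ A0 → V0 ≤ v →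
  ∑ p ∈ (Icc 1 v).filter (fun p => p.Prime ∧
    ∀ r ∈ Icc 1 R, r.Prime → ¬ r ∣ ∑ i ∈ range (a + 1), p ^ i), Real.log p ≤ ε * v

/-- Block NRR. `σ(n) = ∏_p ∑_{i ≤ v_p(n)} p^i`; every `p` of the set contributes at least `1` to
`v_r(σ(n))`. -/
def S_NRR : Prop := ∀ n r a v : ℕ, 1 ≤ n → r.Prime →
  (n.primeFactors.filter (fun p => (p ≤ v ∧ n.factorization p = a) ∧
    r ∣ ∑ i ∈ range (a + 1), p ^ i)).card ≤ (sg n).factorization r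

/-- Block EXT. `y = yy k`, `v = ⌊y⌋₊`; `k` is large because `log n ≤ C yy k`. WIN, PIG (`a`, `c'`),
AVO with `ε = c'/2`: the primes `p ≤ v` with `v_p(n) = a` and `r ∣ ∑ p^i` for some `r ≤ R` have log
mass `≥ c' y / 2`, so for one `r ≤ R` their number is `≥ c' y / (2 (R+1) log y)`; NRR and
`v_r(σ) = v_r(k) + v_r(n)`, `v_r(k) ≤ log_2 k = O(log log y)`; finally
`y / log y ≥ (log n / C) / log (log n / C) ≥ c'' log n / log log n` (`t / log t` increasing). -/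
def S_EXT : Prop := ∀ C : ℝ, 0 < C → ∃ (R : ℕ) (c : ℝ) (N : ℕ), 0 < c ∧ ∀ n k : ℕ, N ≤ n →
  ∑ d ∈ n.divisors, d = k * n →
  Real.log n ≤ C * Real.exp (Real.exp (-Real.eulerMascheroniConstant) * k) →
  ∃ r : ℕ, r.Prime ∧ r ≤ R ∧
    c * Real.log n / Real.log (Real.log n) ≤ (n.factorization r : ℝ)

end Pool.GRX
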